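import Pool.Agent.Run7.h936.SO.Basic

/-! Piece G of MP_cba9f6_lc: under `V = L` every set has a name. -/

set_option autoImplicit false
set_option linter.all false

namespace Run7.h488.SO

open Run7.h936.SO Ordinal Set FirstOrder FirstOrder.Language

universe u

/-- The sets named below `δ`. -/
def K (δ : Ordinal.{u}) : Set ZFSet.{u} := {x | ∃ k : Lvl δ, val k.1 = x}

/-- The element of `K δ` named by `k`. -/
noncomputable def kv {δ : Ordinal.{u}} (k : Lvl δ) : K δ := ⟨val k.1, k, rfl⟩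

theorem kv_surj {δ : Ordinal.{u}} (x : K δ) : ∃ k : Lvl δ, kv k = x := by
  obtain ⟨x, k, hk⟩ := x
  exact ⟨k, Subtype.ext hk⟩

section
variable {δ : Ordinal.{u}} [COrd δ]

theorem tpE (a : Lvl δ) : PFun.tp (LvE δ) a = a := rfl

theorem nth_drop (a : Lvl δ) (i : ℕ) :
    nth (LvE δ) (PFun.f2 (LvE δ) (PFun.f2 (LvE δ) a)) i = nth (LvE δ) a (i + 2) := rfl

/-- Every packed formula over `LvE δ` is a first-order formula over `K δ`. -/
theorem fm_to_fo (ψ : Fm) : ∃ φ : setLang.Formula ℕ, ∀ a : Lvl δ,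
    ψ.Sat (LvE δ) a ↔ φ.Realize (fun i => kv (nth (LvE δ) a i)) := by
  induction ψ with
  | atom s =>
    refine ⟨Relations.formula₂ (SetRel.mem : setLang.Relations 2) (Term.var 0) (Term.var 1),
      fun a => ?_⟩
    rw [sat_atom]
    rfl
  | nand φ ψ ih1 ih2 =>
    obtain ⟨φ', h1⟩ := ih1
    obtain ⟨ψ', h2⟩ := ih2
    refine ⟨∼(φ' ⊓ ψ'), fun a => ?_⟩
    rw [sat_nand, h1, h2]
    simp [Formula.Realize]
  | ex φ ih =>
    obtain ⟨φ', h1⟩ := ih
    refine ⟨Formula.iExs Unit (φ'.relabel (fun i : ℕ =>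
      (Nat.casesOn i (Sum.inr ()) (fun j => Sum.inl j) : ℕ ⊕ Unit))), fun a => ?_⟩
    rw [sat_ex, Formula.realize_iExs]
    have key : ∀ x : Lvl δ, φ.Sat (LvE δ) (PFun.pr (LvE δ) x a) ↔
        (φ'.relabel (fun i : ℕ =>
      (Nat.casesOn i (Sum.inr ()) (fun j => Sum.inl j) : ℕ ⊕ Unit))).Realize
        (Sum.elim (fun i => kv (nth (LvE δ) a i)) (fun _ : Unit => kv x)) := by
      intro x
      rw [h1, Formula.realize_relabel]
      apply iff_of_eq
      congr 1
      funext i
      cases i with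
      | zero => simp
      | succ i => simp
    constructor
    · rintro ⟨x, hx⟩
      exact ⟨fun _ => kv x, (key x).1 hx⟩
    · rintro ⟨f, hf⟩
      obtain ⟨x, hx⟩ := kv_surj (f ())
      refine ⟨x, (key x).2 ?_⟩
      have : (fun _ : Unit => kv x) = f := by
        funext i; rw [hx]
      rw [this]
      exact hf
  | top φ ih =>
    obtain ⟨φ', h1⟩ := ih
    exact ⟨φ', fun a => by rw [sat_top, tpE, h1]⟩
  | drop φ ih =>
    obtain ⟨φ', h1⟩ := ih
    refine ⟨φ'.relabel (fun i : ℕ => (Nat.casesOn i 0 (fun j => j + 2) : ℕ)), fun a => ?_⟩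
    rw [sat_drop, h1, Formula.realize_relabel]
    apply iff_of_eq
    congr 1
    funext i
    cases i with
    | zero => simp [nth]
    | succ i => simp [nth]

/-- `val v_0 = val v_{i+1}`, by extensionality -/
def eqE0 (i : ℕ) : Fm := Fm.all (Fm.iff (Fm.atom 0) (Fm.drops (i + 1) (Fm.atom 0)))

theorem val_eq_iff (x y : Lvl δ) :
    val x.1 = val y.1 ↔ ∀ z : Lvl δ, (val z.1 ∈ val x.1 ↔ val z.1 ∈ val y.1) := by
  constructor
  · intro h z; rw [h]
  · intro h
    apply ZFSet.ext
    intro z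
    constructor
    · intro hz
      obtain ⟨k, rfl⟩ := exists_name_of_mem x.2 hz
      exact (h k).1 hz
    · intro hz
      obtain ⟨k, rfl⟩ := exists_name_of_mem y.2 hz
      exact (h k).2 hz

theorem sat_eqE0 (i : ℕ) (x a : Lvl δ) :
    (eqE0 i).Sat (LvE δ) (PFun.pr (LvE δ) x a) ↔ val x.1 = val (nth (LvE δ) a i).1 := by
  rw [eqE0, Fm.sat_all, val_eq_iff]
  refine forall_congr' fun z => ?_
  rw [Fm.sat_iff, Fm.sat_drops, sat_atom, sat_atom, Fm.nth_eq, Function.iterate_succ_apply]
  simp only [PFun.f1_pr, PFun.f2_pr]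
  rfl

/-- `val v_i ∈ val v_j` -/
def memE (i j : ℕ) : Fm := Fm.ex (Fm.and (eqE0 i) (Fm.drops j (Fm.atom 0)))

theorem sat_memE (i j : ℕ) (a : Lvl δ) :
    (memE i j).Sat (LvE δ) a ↔ val (nth (LvE δ) a i).1 ∈ val (nth (LvE δ) a j).1 := by
  rw [memE, sat_ex]
  simp only [Fm.sat_and, sat_eqE0, Fm.sat_drops, sat_atom, Fm.nth_eq, PFun.f1_pr, PFun.f2_pr]
  constructor
  · rintro ⟨x, h1, h2⟩
    rw [← h1]; exact h2
  · intro h
    exact ⟨_, rfl, h⟩

/-- `val v_i = val v_j` -/
def eqE (i j : ℕ) : Fm := Fm.ex (Fm.and (eqE0 i) (eqE0 j))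

theorem sat_eqE (i j : ℕ) (a : Lvl δ) :
    (eqE i j).Sat (LvE δ) a ↔ val (nth (LvE δ) a i).1 = val (nth (LvE δ) a j).1 := by
  rw [eqE, sat_ex]
  simp only [Fm.sat_and, sat_eqE0]
  constructor
  · rintro ⟨x, h1, h2⟩
    rw [← h1]; exact h2
  · intro h
    exact ⟨_, rfl, h⟩

/-- The environment read from the stack `a`. -/
noncomputable def ev {α : Type*} (ℓ : α → ℕ) (n : ℕ) (a : Lvl δ) : α → K δ :=
  fun i => kv (nth (LvE δ) a (ℓ i + n))

/-- The bound variables read from the stack `a`. -/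
noncomputable def bv (n : ℕ) (a : Lvl δ) : Fin n → K δ :=
  fun j => kv (nth (LvE δ) a (n - 1 - j))

theorem term_pos {α : Type*} (ℓ : α → ℕ) (n : ℕ) (t : setLang.Term (α ⊕ Fin n)) :
    ∃ i : ℕ, ∀ a : Lvl δ, t.realize (Sum.elim (ev ℓ n a) (bv n a)) = kv (nth (LvE δ) a i) := by
  cases t with
  | var x =>
    cases x with
    | inl x => exact ⟨ℓ x + n, fun a => rfl⟩
    | inr j => exact ⟨n - 1 - j, fun a => rfl⟩
  | func f ts => exact Empty.elim f

theorem fo_to_fm {α : Type*} (ℓ : α → ℕ) (n : ℕ) (φ : setLang.BoundedFormula α n) :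
    ∃ ψ : Fm, ∀ a : Lvl δ, ψ.Sat (LvE δ) a ↔ φ.Realize (ev ℓ n a) (bv n a) := by
  induction φ with
  | falsum => exact ⟨Fm.ff, fun a => by
      simp only [Fm.sat_ff, false_iff]; exact fun h => h⟩
  | @equal n t₁ t₂ =>
    obtain ⟨i, hi⟩ := term_pos (δ := δ) ℓ n t₁
    obtain ⟨j, hj⟩ := term_pos (δ := δ) ℓ n t₂
    refine ⟨eqE i j, fun a => ?_⟩
    rw [sat_eqE]
    simp only [BoundedFormula.Realize, hi, hj]
    exact ⟨fun h => Subtype.ext h, fun h => congrArg Subtype.val h⟩
  | @rel n l R ts =>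
    cases R with
    | mem =>
      obtain ⟨i, hi⟩ := term_pos (δ := δ) ℓ n (ts 0)
      obtain ⟨j, hj⟩ := term_pos (δ := δ) ℓ n (ts 1)
      refine ⟨memE i j, fun a => ?_⟩
      rw [sat_memE]
      show _ ↔ (((ts 0).realize (Sum.elim (ev ℓ n a) (bv n a)) : K δ) : ZFSet.{u}) ∈
        (((ts 1).realize (Sum.elim (ev ℓ n a) (bv n a)) : K δ) : ZFSet.{u})
      rw [hi, hj]
      rfl
  | @imp n φ ψ ih1 ih2 =>
    obtain ⟨φ', h1⟩ := ih1
    obtain ⟨ψ', h2⟩ := ih2
    exact ⟨Fm.imp φ' ψ', fun a => by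
      rw [Fm.sat_imp, h1, h2]; rfl⟩
  | @all n φ ih =>
    obtain ⟨φ', h1⟩ := ih
    refine ⟨Fm.all φ', fun a => ?_⟩
    rw [Fm.sat_all, BoundedFormula.realize_all]
    have key : ∀ x : Lvl δ, φ'.Sat (LvE δ) (PFun.pr (LvE δ) x a) ↔
        φ.Realize (ev ℓ n a) (Fin.snoc (bv n a) (kv x)) := by
      intro x
      rw [h1]
      have e1 : ev ℓ (n + 1) (PFun.pr (LvE δ) x a) = ev ℓ n a := by
        funext i
        simp only [ev]
        rw [← add_assoc, nth_pr_succ]
      have e2 : bv (n + 1) (PFun.pr (LvE δ) x a) = Fin.snoc (bv n a) (kv x) := by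
        funext j
        refine Fin.lastCases ?_ (fun j => ?_) j
        · rw [Fin.snoc_last]
          simp [bv]
        · rw [Fin.snoc_castSucc]
          simp only [bv]
          have : n + 1 - 1 - (j.castSucc : ℕ) = (n - 1 - j) + 1 := by
            have := j.2
            simp only [Fin.val_castSucc]
            omega
          rw [this, nth_pr_succ]
      rw [e1, e2]
    constructor
    · intro h x
      obtain ⟨k, rfl⟩ := kv_surj x
      exact (key k).1 (h k)
    · intro h k
      exact (key k).2 (h (kv k))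

theorem nth_stk (l : List (Lvl δ)) (y : Lvl δ) (hy : y ∈ l) :
    ∃ i, nth (LvE δ) (stk (LvE δ) l) i = y := by
  induction l with
  | nil => simp at hy
  | cons x l ih =>
    rw [List.mem_cons] at hy
    rcases hy with rfl | hy
    · exact ⟨0, by simp⟩
    · obtain ⟨i, hi⟩ := ih hy
      exact ⟨i + 1, by simpa using hi⟩

/-- Definable subsets of `K δ` are named. -/
theorem def_to_name (S : Set (K δ)) (hS : (univ : Set (K δ)).Definable₁ setLang S) :
    ∃ (m : ℕ) (p : Lvl δ), ∀ k : Lvl δ, kv k ∈ S ↔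
      (dec (m : Ordinal.{u})).Sat (LvE δ) (PFun.pr (LvE δ) k p) := by
  classical
  unfold Set.Definable₁ at hS
  rw [definable_iff_finitely_definable] at hS
  obtain ⟨A0, _, hS⟩ := hS
  rw [definable_iff_exists_formula_sum] at hS
  obtain ⟨φ, hφ⟩ := hS
  choose name hname using (kv_surj (δ := δ))
  let l : List (Lvl δ) := A0.toList.map name
  let p : Lvl δ := stk (LvE δ) l
  have hidx : ∀ x : (A0 : Set (K δ)), ∃ i, nth (LvE δ) p i = name x := by
    intro x
    apply nth_stk
    simp only [l, List.mem_map, Finset.mem_toList]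
    exact ⟨x.1, by exact_mod_cast x.2, rfl⟩
  choose idx hidx using hidx
  obtain ⟨ψ, hψ⟩ := fo_to_fm (δ := δ) (Sum.elim (fun x => idx x + 1) (fun _ => 0) :
    ((A0 : Set (K δ)) ⊕ Fin 1) → ℕ) 0 φ
  refine ⟨ψ.code, p, fun k => ?_⟩
  rw [dec_code, hψ]
  have h1 : kv k ∈ S ↔ (fun _ : Fin 1 => kv k) ∈ {x : Fin 1 → K δ | x 0 ∈ S} := Iff.rfl
  rw [h1, hφ]
  show φ.Realize _ ↔ _
  rw [Formula.Realize]
  apply iff_of_eq
  congr 1
  · funext i
    rcases i with i | i
    · simp only [Sum.elim_inl, ev, add_zero]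
      rw [nth_pr_succ, hidx, hname]
    · simp only [Sum.elim_inr, ev, add_zero]
      rw [nth_pr_zero]
  · exact Subsingleton.elim _ _

/-- Named subsets of `K δ` are definable. -/
theorem name_to_def (ψ : Fm) (p : Lvl δ) :
    (univ : Set (K δ)).Definable₁ setLang
      {y : K δ | ∃ k : Lvl δ, ψ.Sat (LvE δ) (PFun.pr (LvE δ) k p) ∧ kv k = y} := by
  unfold Set.Definable₁
  rw [definable_iff_exists_formula_sum]
  obtain ⟨φ, hφ⟩ := fm_to_fo (δ := δ) ψ
  refine ⟨φ.relabel (fun i : ℕ => (Nat.casesOn i (Sum.inr 0)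
    (fun j => Sum.inl ⟨kv (nth (LvE δ) p j), mem_univ _⟩) : (univ : Set (K δ)) ⊕ Fin 1)), ?_⟩
  ext v
  have key : ∀ k : Lvl δ, kv k = v 0 → (ψ.Sat (LvE δ) (PFun.pr (LvE δ) k p) ↔
      (φ.relabel (fun i : ℕ => (Nat.casesOn i (Sum.inr 0)
    (fun j => Sum.inl ⟨kv (nth (LvE δ) p j), mem_univ _⟩) :
      (univ : Set (K δ)) ⊕ Fin 1))).Realize (Sum.elim (↑) v)) := by
    intro k hk
    rw [hφ, Formula.realize_relabel]
    apply iff_of_eq
    congr 1
    funext i
    cases i with
    | zero => simp [hk]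
    | succ i => simp
  constructor
  · rintro ⟨k, h1, h2⟩
    exact (key k h2).1 h1
  · intro h
    obtain ⟨k, hk⟩ := kv_surj (v 0)
    exact ⟨k, (key k hk).2 h, hk⟩

end

theorem not_bdd : ¬ BddAbove {δ : Ordinal.{u} | Closed δ} := by
  rintro ⟨b, hb⟩
  let c : Cardinal.{u} := max Cardinal.aleph0 (Order.succ b.card)
  have h1 : Closed c.ord := closed_ord (le_max_left _ _)
  have h2 : c.ord ≤ b := hb h1
  have h3 : b < c.ord := by
    rw [Cardinal.lt_ord]
    exact (Order.lt_succ _).trans_le (le_max_right _ _)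
  exact absurd h2 (not_le.2 h3)

/-- The enumeration of the closed ordinals. -/
noncomputable def th : Ordinal.{u} → Ordinal.{u} := enumOrd {δ : Ordinal.{u} | Closed δ}

theorem th_closed (α : Ordinal.{u}) : Closed (th α) := enumOrd_mem not_bdd α
theorem th_mono : StrictMono (th.{u}) := enumOrd_strictMono not_bdd
theorem th_surj {δ : Ordinal.{u}} (h : Closed δ) : ∃ α, th α = δ :=
  enumOrd_surjective not_bdd h

theorem two_le_closed_omega {δ : Ordinal.{u}} (h : Closed δ) (h2 : 2 ≤ δ) (n : ℕ) :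
    (n : Ordinal.{u}) < δ := by
  have h1 : (1 : Ordinal.{u}) < δ := lt_of_lt_of_le one_lt_two h2
  have h0 : (0 : Ordinal.{u}) < δ := zero_lt_one.trans h1
  have key : ∀ n : ℕ, (n : Ordinal.{u}) < δ := by
    intro n
    induction n with
    | zero => simpa using h0
    | succ n ih =>
      have h3 := h 1 h1 n ih
      have h4 : opair (1 : Ordinal.{u}) n = ((Nat.pair 1 n : ℕ) : Ordinal.{u}) := by
        have := opair_nat.{u} 1 n
        simpa using this
      rw [h4] at h3
      refine lt_of_le_of_lt ?_ h3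
      have : n + 1 ≤ Nat.pair 1 n := by
        unfold Nat.pair
        split_ifs with hn
        · nlinarith
        · omega
      exact_mod_cast this
  exact key n

theorem mem_val_of {δ : Ordinal.{u}} (hδ : Closed δ) (m : Ordinal.{u}) {p : Ordinal.{u}}
    (hp : p < δ) {n : Ordinal.{u}} (h1 : of1 n = δ) (h2 : of1 (of2 n) = m) (h3 : of2 (of2 n) = p)
    {y : ZFSet.{u}} : y ∈ val n ↔ ∃ k : Lvl δ,
      (dec m).Sat (LvE δ) ⟨opair k.1 p, hδ _ k.2 _ hp⟩ ∧ val k.1 = y := by
  subst h1 h2 h3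
  rw [mem_val]
  exact ⟨fun ⟨_, h⟩ => h, fun h => ⟨⟨hδ, hp⟩, h⟩⟩

theorem LSet_eq (α : Ordinal.{u}) : LSet α = K (th α) := by
  induction α using WellFoundedLT.induction with
  | _ α ih =>
    ext x
    constructor
    · intro hx
      rw [LSet] at hx
      obtain ⟨β, hβ, hx⟩ := hx
      rw [ih β hβ] at hx
      obtain ⟨hx1, hx2⟩ := hx
      rcases eq_or_ne (th β) 0 with h0 | h0
      · -- `x` is empty
        have hx0 : x = ∅ := by
          rw [ZFSet.eq_empty]
          intro y hy
          obtain ⟨k, _⟩ := hx1 y hy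
          exact absurd (k.2.trans_eq h0) (not_lt.2 zero_le)
        refine ⟨⟨0, ?_⟩, ?_⟩
        · have := th_mono hβ
          rwa [h0] at this
        · rw [hx0, ZFSet.eq_empty]
          intro y hy
          rw [mem_val] at hy
          obtain ⟨h, _⟩ := hy
          rw [of1_zero] at h
          exact absurd h.2 (not_lt.2 zero_le)
      · have hpos : 0 < th β := pos_iff_ne_zero.2 h0
        haveI : COrd (th β) := ⟨th_closed β, hpos⟩
        obtain ⟨m, p, hmp⟩ := def_to_name _ hx2
        have h2 : 2 ≤ th α := by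
          have h1 : 1 ≤ th β := Order.one_le_iff_pos.2 hpos
          have h3 : th β < th α := th_mono hβ
          have h4 : Order.succ (1 : Ordinal.{u}) ≤ th α :=
            Order.succ_le_of_lt (h1.trans_lt h3)
          have h5 : Order.succ (1 : Ordinal.{u}) = 2 := by
            rw [Order.succ_eq_add_one]; exact one_add_one_eq_two
          rwa [h5] at h4
        have hn : opair (th β) (opair (m : Ordinal.{u}) p.1) < th α :=
          th_closed α _ (th_mono hβ) _ (th_closed α _
            (two_le_closed_omega (th_closed α) h2 m) _ (p.2.trans (th_mono hβ)))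
        refine ⟨⟨_, hn⟩, ?_⟩
        apply ZFSet.ext
        intro y
        rw [mem_val_of (th_closed β) (m : Ordinal.{u}) p.2 (of1_opair _ _) (by simp) (by simp)]
        constructor
        · rintro ⟨k, hk, rfl⟩
          exact (hmp k).2 hk
        · intro hy
          obtain ⟨k, rfl⟩ := hx1 y hy
          exact ⟨k, (hmp k).1 hy, rfl⟩
    · rintro ⟨⟨n, hn⟩, rfl⟩
      have hαpos : 0 < α := by
        rw [pos_iff_ne_zero]
        rintro rfl
        have h0 : th (0 : Ordinal.{u}) ≤ 0 := by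
          rw [th, enumOrd_zero]
          apply csInf_le'
          intro a ha
          exact absurd ha (not_lt.2 zero_le)
        exact absurd hn (not_lt.2 (h0.trans zero_le))
      rw [LSet]
      by_cases hC : Closed (of1 n) ∧ of2 (of2 n) < of1 n
      · obtain ⟨β, hβ⟩ := th_surj hC.1
        have hβα : β < α := by
          rw [← th_mono.lt_iff_lt, hβ]
          exact (of1_le n).trans_lt hn
        refine ⟨β, hβα, ?_⟩
        rw [ih β hβα, hβ]
        haveI : COrd (of1 n) := ⟨hC.1, lt_of_le_of_lt zero_le hC.2⟩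
        constructor
        · intro y hy
          rw [mem_val] at hy
          obtain ⟨_, k, _, hk⟩ := hy
          exact ⟨k, hk⟩
        · have h1 := name_to_def (δ := of1 n) (dec (of1 (of2 n))) ⟨of2 (of2 n), hC.2⟩
          convert h1 using 1
          ext y
          show (y : ZFSet.{u}) ∈ val n ↔ _
          rw [mem_val]
          constructor
          · rintro ⟨_, k, hk, hky⟩
            exact ⟨k, hk, Subtype.ext hky⟩
          · rintro ⟨k, hk, hky⟩
            exact ⟨hC, k, hk, congrArg Subtype.val hky⟩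
      · refine ⟨0, hαpos, ?_⟩
        have hval : val n = ∅ := by
          rw [ZFSet.eq_empty]
          intro y hy
          rw [mem_val] at hy
          exact hC hy.1
        have hL0 : LSet (0 : Ordinal.{u}) = ∅ := by
          rw [LSet]
          ext y
          simp only [mem_empty_iff_false, iff_false]
          rintro ⟨β, hβ, _⟩
          exact absurd hβ (not_lt.2 zero_le)
        rw [hval]
        constructor
        · intro y hy
          exact absurd hy (ZFSet.notMem_empty y)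
        · unfold Set.Definable₁
          convert (definable_empty (A := (univ : Set (LSet (0 : Ordinal.{u}))))
            (L := setLang) (α := Fin 1)) using 1
          ext v
          simp

/-- PIECE G (V = L link): under V = L every set has a name. -/
theorem exists_name (h : VeqL.{u}) (x : ZFSet.{u}) : ∃ n : Ordinal.{u}, val n = x := by
  obtain ⟨α, hα⟩ := h x
  rw [LSet_eq] at hα
  obtain ⟨k, hk⟩ := hα
  exact ⟨k.1, hk⟩

end Run7.h488.SO
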