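import Pool.Agent.Run7.h505.SO.K

/-! Piece L of MP_cba9f6_lc, part 1: the template for second-order satisfaction. -/

set_option autoImplicit false
set_option linter.all false

namespace Run7.h488.SO

open Run7.h936.SO Ordinal Set Run7.h505.SO

universe u

/-- `v_i = n` -/
def num : ℕ → ℕ → Fm
  | 0, i => zf i
  | n + 1, i => Fm.ex (Fm.and (num n 0) (sf 0 (i + 1)))

/-- `v_j = v_i + c` -/
def addc : ℕ → ℕ → ℕ → Fm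
  | 0, i, j => Fm.eqv i j
  | c + 1, i, j => Fm.ex (Fm.and (addc c (i + 1) 0) (sf 0 (j + 1)))

/-- `⟨k, v_i⟩ = v_j` -/
def tag (k i j : ℕ) : Fm := Fm.ex (Fm.and (num k 0) (Fm.prv 0 (i + 1) (j + 1)))

/-- `U ⟨v_i, v_j⟩ v_c` -/
def U2 (i j c : ℕ) : Fm := Fm.ex (Fm.and (Fm.prv (i + 1) (j + 1) 0) (Fm.Uv 0 (c + 1)))

/-- `X` at `[j, v_{i1}, …, v_{i6}]` -/
def call (j : ℕ) (X : Fm) (i1 i2 i3 i4 i5 i6 : ℕ) : Fm :=
  Fm.ex (Fm.and (num j 0) (Fm.app X [0, i1 + 1, i2 + 1, i3 + 1, i4 + 1, i5 + 1, i6 + 1] 0))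

section
variable {Ω : Ordinal.{u}} [FullΩ Ω]

@[simp] theorem sat_num (n i : ℕ) (a : Lvl Ω) :
    (num n i).Sat (Lv Ω) a ↔ (nth (Lv Ω) a i).1 = (n : Ordinal.{u}) := by
  induction n generalizing i a with
  | zero => rw [num, sat_zf, Nat.cast_zero]
  | succ n ih =>
    simp only [num, Fm.sat_ex', Fm.sat_and, sat_sf, ih, nth_pr_zero, nth_pr_succ]
    constructor
    · rintro ⟨x, h1, h2⟩
      rw [h2, h1, Nat.cast_succ]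
    · intro h
      refine ⟨⟨n, nat_lt_full Ω n⟩, rfl, ?_⟩
      rw [h, Nat.cast_succ]

@[simp] theorem sat_addc (c i j : ℕ) (a : Lvl Ω) :
    (addc c i j).Sat (Lv Ω) a ↔ (nth (Lv Ω) a j).1 = (nth (Lv Ω) a i).1 + (c : Ordinal.{u}) := by
  induction c generalizing i j a with
  | zero =>
    rw [addc, Fm.sat_eqv, Nat.cast_zero, add_zero]
    exact ⟨fun h => (congrArg Subtype.val h).symm, fun h => Subtype.ext h.symm⟩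
  | succ c ih =>
    simp only [addc, Fm.sat_ex', Fm.sat_and, sat_sf, ih, nth_pr_zero, nth_pr_succ]
    constructor
    · rintro ⟨x, h1, h2⟩
      rw [h2, h1, Nat.cast_succ, add_assoc]
    · intro h
      have h3 : (nth (Lv Ω) a i).1 + (c : Ordinal.{u}) < Ω := by
        refine lt_of_le_of_lt ?_ (nth (Lv Ω) a j).2
        rw [h, Nat.cast_succ, ← add_assoc]
        exact (lt_add_one _).le
      exact ⟨⟨_, h3⟩, rfl, by rw [h, Nat.cast_succ, add_assoc]⟩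

@[simp] theorem sat_tag (k i j : ℕ) (a : Lvl Ω) :
    (tag k i j).Sat (Lv Ω) a ↔ opair (k : Ordinal.{u}) (nth (Lv Ω) a i).1 = (nth (Lv Ω) a j).1 := by
  simp only [tag, Fm.sat_ex', Fm.sat_and, Fm.sat_prv, sat_num, nth_pr_zero, nth_pr_succ]
  constructor
  · rintro ⟨x, h1, h2⟩
    have := congrArg Subtype.val h2
    rw [pr_val, h1] at this
    exact this
  · intro h
    exact ⟨⟨k, nat_lt_full Ω k⟩, rfl, Subtype.ext h⟩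

@[simp] theorem sat_U2 (i j c : ℕ) (a : Lvl Ω) : (U2 i j c).Sat (Lv Ω) a ↔
    U (opair (nth (Lv Ω) a i).1 (nth (Lv Ω) a j).1) (nth (Lv Ω) a c).1 := by
  simp only [U2, Fm.sat_and, Fm.sat_ex', Fm.sat_prv, sat_Uv, nth_pr_zero, nth_pr_succ]
  constructor
  · rintro ⟨z, rfl, h⟩; exact h
  · intro h; exact ⟨_, rfl, h⟩

/-- The numeral `n`. -/
def nm (Ω : Ordinal.{u}) [FullΩ Ω] (n : ℕ) : Lvl Ω := ⟨n, nat_lt_full Ω n⟩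

/-- The stack at which `X` is evaluated by `call`. -/
noncomputable def env7 (j m x o y v w t : Lvl Ω) : Lvl Ω :=
  PFun.pr (Lv Ω) j (PFun.pr (Lv Ω) m (PFun.pr (Lv Ω) x (PFun.pr (Lv Ω) o (PFun.pr (Lv Ω) y
    (PFun.pr (Lv Ω) v (PFun.pr (Lv Ω) w t))))))

@[simp] theorem sat_call (j : ℕ) (X : Fm) (i1 i2 i3 i4 i5 i6 : ℕ) (a : Lvl Ω) :
    (call j X i1 i2 i3 i4 i5 i6).Sat (Lv Ω) a ↔
      X.Sat (Lv Ω) (env7 (nm Ω j) (nth (Lv Ω) a i1) (nth (Lv Ω) a i2) (nth (Lv Ω) a i3)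
        (nth (Lv Ω) a i4) (nth (Lv Ω) a i5) (nth (Lv Ω) a i6) (nm Ω j)) := by
  simp only [call, Fm.sat_and, Fm.sat_ex', Fm.sat_app, sat_num, nth_pr_zero, nth_pr_succ,
    List.map_cons, List.map_nil, List.foldr_cons, List.foldr_nil]
  constructor
  · rintro ⟨z, h1, h⟩
    have hz : z = nm Ω j := Subtype.ext h1
    subst hz
    exact h
  · intro h; exact ⟨nm Ω j, rfl, h⟩

end

/-! ### The clauses -/

/-- variables -/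
def cVar : Fm := Fm.ex (Fm.and (tag 1 0 2) (U2 0 3 6))
/-- function application -/
def cApp (R : ℕ) (X : Fm) : Fm :=
  Fm.ex (Fm.ex (Fm.ex (Fm.ex (Fm.ex (Fm.ex (Fm.and (tag 2 5 7) (Fm.and (Fm.prv 4 3 5)
    (Fm.and (call 1 X 3 2 9 10 11 12) (Fm.and (addc R 4 1) (Fm.and (Fm.prv 8 2 0)
      (Fm.and (U2 1 0 10) (Fm.ltv 8 9))))))))))))
/-- empty list -/
def cNil : Fm := Fm.and (num 0 1) (num 0 2)
/-- nonempty list -/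
def cCons (X : Fm) : Fm :=
  Fm.ex (Fm.ex (Fm.ex (Fm.ex (Fm.ex (Fm.and (tag 1 4 6) (Fm.and (Fm.prv 3 2 4)
    (Fm.and (call 0 X 3 1 8 9 10 11) (Fm.and (call 1 X 2 0 8 9 10 11) (Fm.prv 1 0 7)))))))))
/-- equality -/
def cEq (X : Fm) : Fm :=
  Fm.ex (Fm.ex (Fm.ex (Fm.ex (Fm.and (tag 1 3 5) (Fm.and (Fm.prv 2 1 3)
    (Fm.and (call 0 X 2 0 7 8 9 10) (call 0 X 1 0 7 8 9 10)))))))
/-- relation symbols -/
def cRel (X : Fm) : Fm :=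
  Fm.ex (Fm.ex (Fm.ex (Fm.ex (Fm.and (tag 2 3 5) (Fm.and (Fm.prv 2 1 3)
    (Fm.and (call 1 X 1 0 7 8 9 10) (U2 2 0 8)))))))
/-- second-order variables -/
def cSov (X : Fm) : Fm :=
  Fm.ex (Fm.ex (Fm.ex (Fm.ex (Fm.and (tag 3 3 5) (Fm.and (Fm.prv 2 1 3)
    (Fm.and (call 1 X 1 0 7 8 9 10) (U2 2 0 10)))))))
/-- negation -/
def cNeg (X : Fm) : Fm := Fm.ex (Fm.and (tag 4 0 2) (Fm.not (call 2 X 0 3 4 5 6 7)))
/-- conjunction -/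
def cAnd (X : Fm) : Fm :=
  Fm.ex (Fm.ex (Fm.ex (Fm.and (tag 5 2 4) (Fm.and (Fm.prv 1 0 2)
    (Fm.and (call 2 X 1 5 6 7 8 9) (call 2 X 0 5 6 7 8 9))))))
/-- first-order quantifier -/
def cAll (X : Fm) : Fm :=
  Fm.ex (Fm.ex (Fm.ex (Fm.and (tag 6 2 4) (Fm.and (Fm.prv 1 0 2)
    (Fm.all (Fm.all (Fm.imp (Fm.ltv 0 8) (Fm.imp
      (Fm.all (Fm.all (Fm.imp (nf 1) (Fm.iff (U2 1 0 3)
        (Fm.or (Fm.and (Fm.not (Fm.eqv 1 5)) (U2 1 0 12)) (Fm.and (Fm.eqv 1 5) (Fm.eqv 0 2)))))))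
      (call 2 X 2 7 8 9 1 11)))))))))
/-- second-order quantifier -/
def cAllR (X : Fm) : Fm :=
  Fm.ex (Fm.ex (Fm.ex (Fm.and (tag 7 2 4) (Fm.and (Fm.prv 1 0 2)
    (Fm.all (Fm.imp
      (Fm.all (Fm.all (Fm.imp (Fm.not (Fm.eqv 1 4)) (Fm.iff (U2 1 0 2) (U2 1 0 12)))))
      (call 2 X 1 6 7 8 9 0)))))))

/-- The template. -/
def Tmpl (R : ℕ) (X : Fm) : Fm :=
  Fm.or (Fm.and (num 0 0) (Fm.or cVar (cApp R X)))
  (Fm.or (Fm.and (num 1 0) (Fm.or cNil (cCons X)))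
    (Fm.and (num 2 0) (Fm.or (cEq X) (Fm.or (cRel X) (Fm.or (cSov X) (Fm.or (cNeg X)
      (Fm.or (cAnd X) (Fm.or (cAll X) (cAllR X)))))))))

section
variable {Ω : Ordinal.{u}} [FullΩ Ω] (j m x o y v w t : Lvl Ω)

theorem val_prv_iff {x y z : Lvl Ω} : PFun.pr (Lv Ω) x y = z ↔ opair x.1 y.1 = z.1 :=
  Subtype.ext_iff

theorem sat_cVar : cVar.Sat (Lv Ω) (env7 j m x o y v w t) ↔
    ∃ i : Lvl Ω, opair ((1 : ℕ) : Ordinal.{u}) i.1 = m.1 ∧ U (opair i.1 x.1) v.1 := by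
  simp only [cVar, env7, Fm.sat_ex', Fm.sat_and, sat_tag, sat_U2, nth_pr_zero, nth_pr_succ]

theorem sat_cApp (R : ℕ) (X : Fm) : (cApp R X).Sat (Lv Ω) (env7 j m x o y v w t) ↔
    ∃ r f l s z p : Lvl Ω, opair ((2 : ℕ) : Ordinal.{u}) r.1 = m.1 ∧ opair f.1 l.1 = r.1 ∧
      X.Sat (Lv Ω) (env7 (nm Ω 1) l s o y v w (nm Ω 1)) ∧ z.1 = f.1 + (R : Ordinal.{u}) ∧
      opair x.1 s.1 = p.1 ∧ U (opair z.1 p.1) y.1 ∧ x < o := by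
  simp only [cApp, env7, Fm.sat_ex', Fm.sat_and, sat_tag, sat_U2, Fm.sat_prv, sat_ltv, sat_addc,
    sat_call, val_prv_iff, nth_pr_zero, nth_pr_succ]

theorem sat_cNil : cNil.Sat (Lv Ω) (env7 j m x o y v w t) ↔
    m.1 = ((0 : ℕ) : Ordinal.{u}) ∧ x.1 = ((0 : ℕ) : Ordinal.{u}) := by
  simp only [cNil, env7, Fm.sat_and, sat_num, nth_pr_zero, nth_pr_succ]

theorem sat_cCons (X : Fm) : (cCons X).Sat (Lv Ω) (env7 j m x o y v w t) ↔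
    ∃ r c l a s : Lvl Ω, opair ((1 : ℕ) : Ordinal.{u}) r.1 = m.1 ∧ opair c.1 l.1 = r.1 ∧
      X.Sat (Lv Ω) (env7 (nm Ω 0) c a o y v w (nm Ω 0)) ∧
      X.Sat (Lv Ω) (env7 (nm Ω 1) l s o y v w (nm Ω 1)) ∧
      opair a.1 s.1 = x.1 := by
  simp only [cCons, env7, Fm.sat_ex', Fm.sat_and, sat_tag, sat_U2, Fm.sat_prv, sat_ltv, sat_addc,
    sat_call, val_prv_iff, nth_pr_zero, nth_pr_succ]

theorem sat_cEq (X : Fm) : (cEq X).Sat (Lv Ω) (env7 j m x o y v w t) ↔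
    ∃ r a b c : Lvl Ω, opair ((1 : ℕ) : Ordinal.{u}) r.1 = m.1 ∧ opair a.1 b.1 = r.1 ∧
      X.Sat (Lv Ω) (env7 (nm Ω 0) a c o y v w (nm Ω 0)) ∧
      X.Sat (Lv Ω) (env7 (nm Ω 0) b c o y v w (nm Ω 0)) := by
  simp only [cEq, env7, Fm.sat_ex', Fm.sat_and, sat_tag, sat_U2, Fm.sat_prv, sat_ltv, sat_addc,
    sat_call, val_prv_iff, nth_pr_zero, nth_pr_succ]

theorem sat_cRel (X : Fm) : (cRel X).Sat (Lv Ω) (env7 j m x o y v w t) ↔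
    ∃ r R l s : Lvl Ω, opair ((2 : ℕ) : Ordinal.{u}) r.1 = m.1 ∧ opair R.1 l.1 = r.1 ∧
      X.Sat (Lv Ω) (env7 (nm Ω 1) l s o y v w (nm Ω 1)) ∧ U (opair R.1 s.1) y.1 := by
  simp only [cRel, env7, Fm.sat_ex', Fm.sat_and, sat_tag, sat_U2, Fm.sat_prv, sat_ltv, sat_addc,
    sat_call, val_prv_iff, nth_pr_zero, nth_pr_succ]

theorem sat_cSov (X : Fm) : (cSov X).Sat (Lv Ω) (env7 j m x o y v w t) ↔
    ∃ r R l s : Lvl Ω, opair ((3 : ℕ) : Ordinal.{u}) r.1 = m.1 ∧ opair R.1 l.1 = r.1 ∧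
      X.Sat (Lv Ω) (env7 (nm Ω 1) l s o y v w (nm Ω 1)) ∧ U (opair R.1 s.1) w.1 := by
  simp only [cSov, env7, Fm.sat_ex', Fm.sat_and, sat_tag, sat_U2, Fm.sat_prv, sat_ltv, sat_addc,
    sat_call, val_prv_iff, nth_pr_zero, nth_pr_succ]

theorem sat_cNeg (X : Fm) : (cNeg X).Sat (Lv Ω) (env7 j m x o y v w t) ↔
    ∃ r : Lvl Ω, opair ((4 : ℕ) : Ordinal.{u}) r.1 = m.1 ∧
      ¬ X.Sat (Lv Ω) (env7 (nm Ω 2) r x o y v w (nm Ω 2)) := by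
  simp only [cNeg, env7, Fm.sat_ex', Fm.sat_and, Fm.sat_not, sat_tag, sat_call,
    nth_pr_zero, nth_pr_succ]

theorem sat_cAnd (X : Fm) : (cAnd X).Sat (Lv Ω) (env7 j m x o y v w t) ↔
    ∃ r a b : Lvl Ω, opair ((5 : ℕ) : Ordinal.{u}) r.1 = m.1 ∧ opair a.1 b.1 = r.1 ∧
      X.Sat (Lv Ω) (env7 (nm Ω 2) a x o y v w (nm Ω 2)) ∧
      X.Sat (Lv Ω) (env7 (nm Ω 2) b x o y v w (nm Ω 2)) := by
  simp only [cAnd, env7, Fm.sat_ex', Fm.sat_and, sat_tag, sat_U2, Fm.sat_prv, sat_ltv, sat_addc,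
    sat_call, val_prv_iff, nth_pr_zero, nth_pr_succ]

theorem sat_cAll (X : Fm) : (cAll X).Sat (Lv Ω) (env7 j m x o y v w t) ↔
    ∃ r i b : Lvl Ω, opair ((6 : ℕ) : Ordinal.{u}) r.1 = m.1 ∧ opair i.1 b.1 = r.1 ∧
      ∀ v' ξ : Lvl Ω, ξ < o → (∀ k ξ' : Lvl Ω, (∃ n : ℕ, k.1 = n) →
        (U (opair k.1 ξ'.1) v'.1 ↔ ((¬ k = i ∧ U (opair k.1 ξ'.1) v.1) ∨ (k = i ∧ ξ' = ξ)))) →
      X.Sat (Lv Ω) (env7 (nm Ω 2) b x o y v' w (nm Ω 2)) := by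
  simp only [cAll, env7, Fm.sat_ex', Fm.sat_and, Fm.sat_all, Fm.sat_or, Fm.sat_imp, Fm.sat_iff,
    Fm.sat_not, Fm.sat_eqv, sat_nf, sat_tag, sat_U2, Fm.sat_prv, sat_ltv, sat_addc,
    sat_call, val_prv_iff, nth_pr_zero, nth_pr_succ]

theorem sat_cAllR (X : Fm) : (cAllR X).Sat (Lv Ω) (env7 j m x o y v w t) ↔
    ∃ r K b : Lvl Ω, opair ((7 : ℕ) : Ordinal.{u}) r.1 = m.1 ∧ opair K.1 b.1 = r.1 ∧
      ∀ w' : Lvl Ω, (∀ K' s : Lvl Ω, ¬ K' = K →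
        (U (opair K'.1 s.1) w'.1 ↔ U (opair K'.1 s.1) w.1)) →
      X.Sat (Lv Ω) (env7 (nm Ω 2) b x o y v w' (nm Ω 2)) := by
  simp only [cAllR, env7, Fm.sat_ex', Fm.sat_and, Fm.sat_all, Fm.sat_or, Fm.sat_imp, Fm.sat_iff,
    Fm.sat_not, Fm.sat_eqv, sat_nf, sat_tag, sat_U2, Fm.sat_prv, sat_ltv, sat_addc,
    sat_call, val_prv_iff, nth_pr_zero, nth_pr_succ]

end

end Run7.h488.SO
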