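import Pool.Agent.Run7.h936.SO.Defs

/-! Piece R of MP_cba9f6_lc: coincidence lemma and universal closure of second-order formulas. -/

namespace Run7.h488.SO

open Run7.h936.SO

universe u

theorem upd_same {M : Type u} (W : SOAssign M) (n k : ℕ) (R : (Fin n → M) → Prop) :
    (W.upd n k R) n k = R := by
  simp [SOAssign.upd]

theorem upd_ne {M : Type u} (W : SOAssign M) {n k n' k' : ℕ} (R : (Fin n → M) → Prop)
    (h : (n', k') ≠ (n, k)) : (W.upd n k R) n' k' = W n' k' := by
  unfold SOAssign.upd
  split_ifs with h1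
  · subst h1
    have : k' ≠ k := fun h2 => h (by rw [h2])
    simp [Function.update_of_ne this]
  · rfl

theorem upd_self {M : Type u} (W : SOAssign M) (n k : ℕ) :
    W.upd n k (W n k) = W := by
  funext n' k'
  by_cases h : (n', k') = (n, k)
  · obtain ⟨rfl, rfl⟩ := Prod.mk.inj h
    exact upd_same _ _ _ _
  · exact upd_ne _ _ h

/-- Agreement lemma for terms. -/
theorem val_congr {V : Vocab} {M : Type u} (A : Str V M) {e e' : ℕ → M} :
    ∀ (t : Term V), (∀ i ∈ t.vars, e i = e' i) → t.val A e = t.val A e'
  | .var i, h => h i (by simp [Term.vars])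
  | .app f ts, h => by
      simp only [Term.val]
      congr 1
      funext i
      exact val_congr A (ts i) (fun j hj => h j (by
        simp only [Term.vars, Set.mem_iUnion]; exact ⟨i, hj⟩))

/-- Coincidence lemma. -/
theorem sat_congr {V : Vocab} {M : Type u} (A : Str V M) :
    ∀ (φ : Formula V) {e e' : ℕ → M} {W W' : SOAssign M},
      (∀ i ∈ φ.free, e i = e' i) → (∀ p ∈ φ.freeR, W p.1 p.2 = W' p.1 p.2) →
      (φ.Sat A e W ↔ φ.Sat A e' W')
  | .eq t s, e, e', W, W', h, _ => by
      simp only [Formula.Sat]
      rw [val_congr A t (fun i hi => h i (Or.inl hi)), val_congr A s (fun i hi => h i (Or.inr hi))]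
  | .rel R ts, e, e', W, W', h, _ => by
      simp only [Formula.Sat]
      have : (fun i => (ts i).val A e) = (fun i => (ts i).val A e') := by
        funext i
        exact val_congr A (ts i) (fun j hj => h j (by
          simp only [Formula.free, Set.mem_iUnion]; exact ⟨i, hj⟩))
      rw [this]
  | .sov n k ts, e, e', W, W', h, hR => by
      simp only [Formula.Sat]
      have : (fun i => (ts i).val A e) = (fun i => (ts i).val A e') := by
        funext i
        exact val_congr A (ts i) (fun j hj => h j (by
          simp only [Formula.free, Set.mem_iUnion]; exact ⟨i, hj⟩))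
      rw [this, hR (n, k) (by simp [Formula.freeR])]
  | .neg φ, e, e', W, W', h, hR => by
      simp only [Formula.Sat]
      rw [sat_congr A φ h hR]
  | .and φ ψ, e, e', W, W', h, hR => by
      simp only [Formula.Sat]
      rw [sat_congr A φ (fun i hi => h i (Or.inl hi)) (fun i hi => hR i (Or.inl hi)),
        sat_congr A ψ (fun i hi => h i (Or.inr hi)) (fun i hi => hR i (Or.inr hi))]
  | .all i φ, e, e', W, W', h, hR => by
      simp only [Formula.Sat]
      refine forall_congr' fun x => sat_congr A φ (fun j hj => ?_) hR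
      by_cases hji : j = i
      · subst hji; simp
      · rw [Function.update_of_ne hji, Function.update_of_ne hji]
        exact h j ⟨hj, hji⟩
  | .allR n k φ, e, e', W, W', h, hR => by
      simp only [Formula.Sat]
      refine forall_congr' fun x => sat_congr A φ h (fun p hp => ?_)
      obtain ⟨n', k'⟩ := p
      by_cases hji : (n', k') = (n, k)
      · obtain ⟨rfl, rfl⟩ := Prod.mk.inj hji
        simp only [upd_same]
      · simp only [upd_ne _ _ hji]
        exact hR (n', k') ⟨hp, hji⟩

theorem vars_finite {V : Vocab} : ∀ t : Term V, t.vars.Finite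
  | .var i => Set.finite_singleton i
  | .app _ ts => Set.finite_iUnion fun i => vars_finite (ts i)

theorem free_finite {V : Vocab} : ∀ φ : Formula V, φ.free.Finite
  | .eq t s => (vars_finite t).union (vars_finite s)
  | .rel _ ts => Set.finite_iUnion fun i => vars_finite (ts i)
  | .sov _ _ ts => Set.finite_iUnion fun i => vars_finite (ts i)
  | .neg φ => free_finite φ
  | .and φ ψ => (free_finite φ).union (free_finite ψ)
  | .all _ φ => (free_finite φ).diff
  | .allR _ _ φ => free_finite φ

theorem freeR_finite {V : Vocab} : ∀ φ : Formula V, φ.freeR.Finite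
  | .eq _ _ => Set.finite_empty
  | .rel _ _ => Set.finite_empty
  | .sov n k _ => Set.finite_singleton (n, k)
  | .neg φ => freeR_finite φ
  | .and φ ψ => (freeR_finite φ).union (freeR_finite ψ)
  | .all _ φ => freeR_finite φ
  | .allR _ _ φ => (freeR_finite φ).diff

theorem models_all {V : Vocab} {M : Type u} (A : Str V M) (i : ℕ) (φ : Formula V) :
    A.Models (.all i φ) ↔ A.Models φ := by
  constructor
  · intro h e W
    have := h e W (e i)
    rwa [Function.update_eq_self] at this
  · intro h e W x
    exact h _ W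

theorem models_allR {V : Vocab} {M : Type u} (A : Str V M) (n k : ℕ) (φ : Formula V) :
    A.Models (.allR n k φ) ↔ A.Models φ := by
  constructor
  · intro h e W
    have := h e W (W n k)
    rwa [upd_self] at this
  · intro h e W x
    exact h e _

theorem close_fo {V : Vocab} (φ : Formula V) :
    ∀ l : List ℕ, ∃ ψ : Formula V, ψ.free = φ.free \ {i | i ∈ l} ∧ ψ.freeR = φ.freeR ∧
      ∀ (M : Type u) (A : Str V M), (A.Models ψ ↔ A.Models φ)
  | [] => ⟨φ, by simp, rfl, fun _ _ => Iff.rfl⟩
  | i :: l => by
      obtain ⟨ψ, h1, h2, h3⟩ := close_fo φ l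
      refine ⟨.all i ψ, ?_, h2, fun M A => (models_all A i ψ).trans (h3 M A)⟩
      simp only [Formula.free, h1]
      ext j
      simp only [Set.mem_diff, Set.mem_setOf_eq, Set.mem_singleton_iff, List.mem_cons]
      tauto

theorem close_so {V : Vocab} (φ : Formula V) :
    ∀ l : List (ℕ × ℕ), ∃ ψ : Formula V, ψ.free = φ.free ∧ ψ.freeR = φ.freeR \ {i | i ∈ l} ∧
      ∀ (M : Type u) (A : Str V M), (A.Models ψ ↔ A.Models φ)
  | [] => ⟨φ, rfl, by simp, fun _ _ => Iff.rfl⟩
  | p :: l => by
      obtain ⟨ψ, h1, h2, h3⟩ := close_so φ l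
      refine ⟨.allR p.1 p.2 ψ, h1, ?_, fun M A => (models_allR A p.1 p.2 ψ).trans (h3 M A)⟩
      simp only [Formula.freeR, h2]
      ext j
      simp only [Set.mem_diff, Set.mem_setOf_eq, Set.mem_singleton_iff, List.mem_cons]
      tauto

/-- A sentence holds under one assignment iff it holds under all of them. -/
theorem sentence_sat {V : Vocab} {M : Type u} (A : Str V M) {ψ : Formula V} (h : ψ.IsSentence)
    (e e' : ℕ → M) (W W' : SOAssign M) : ψ.Sat A e W ↔ ψ.Sat A e' W' :=
  sat_congr A ψ (fun i hi => by rw [h.1] at hi; exact absurd hi (Set.notMem_empty i))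
    (fun i hi => by rw [h.2] at hi; exact absurd hi (Set.notMem_empty i))

theorem sentence_models_iff {V : Vocab} {M : Type u} (A : Str V M) {ψ : Formula V}
    (h : ψ.IsSentence) (e : ℕ → M) (W : SOAssign M) : A.Models ψ ↔ ψ.Sat A e W :=
  ⟨fun h' => h' e W, fun h' e' W' => (sentence_sat A h e e' W W').1 h'⟩

theorem sentence_neg {V : Vocab} {M : Type u} [Nonempty M] (A : Str V M) {ψ : Formula V}
    (h : ψ.IsSentence) : A.Models (.neg ψ) ↔ ¬ A.Models ψ := by
  obtain ⟨m⟩ := (inferInstance : Nonempty M)
  have h' : (Formula.neg ψ).IsSentence := h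
  rw [sentence_models_iff A h (fun _ => m) (fun _ _ _ => True),
    sentence_models_iff A h' (fun _ => m) (fun _ _ _ => True)]
  rfl

/-- PIECE R (closure): every formula has a universal closure. -/
theorem exists_sentence {V : Vocab} (φ : Formula V) :
    ∃ ψ : Formula V, ψ.IsSentence ∧ ∀ (M : Type u) [Nonempty M] (A : Str V M),
      (A.Models ψ ↔ A.Models φ) ∧ (A.Models (.neg ψ) ↔ ¬ A.Models φ) := by
  obtain ⟨ψ₁, a1, b1, c1⟩ := close_fo.{u} φ (free_finite φ).toFinset.toList
  obtain ⟨ψ₂, a2, b2, c2⟩ := close_so.{u} ψ₁ (freeR_finite φ).toFinset.toList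
  have hs : ψ₂.IsSentence := by
    constructor
    · rw [a2, a1]
      ext j
      simp
    · rw [b2, b1]
      ext j
      simp
  refine ⟨ψ₂, hs, fun M _ A => ?_⟩
  have h : A.Models ψ₂ ↔ A.Models φ := (c2 M A).trans (c1 M A)
  exact ⟨h, by rw [sentence_neg A hs, h]⟩

end Run7.h488.SO
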