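import Pool.Agent.Run7.h488.SO.L1
import Pool.Agent.Run7.h488.SO.R

/-! Piece L of MP_cba9f6_lc, part 2: correctness of the template. -/

set_option autoImplicit false
set_option linter.all false

namespace Run7.h488.SO

open Run7.h936.SO Ordinal Set Run7.h505.SO

universe u

theorem rank_val_le (n : Ordinal.{u}) : (val n).rank ≤ n := by
  induction n using WellFoundedLT.induction with
  | _ n ih =>
    rw [ZFSet.rank_le_iff]
    intro y hy
    rw [mem_val] at hy
    obtain ⟨_, k, _, rfl⟩ := hy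
    have h1 : k.1 < n := k.2.trans_le (of1_le n)
    exact (ih _ h1).trans_lt h1

theorem U_lt {ξ c : Ordinal.{u}} (h : U ξ c) : ξ < c := by
  have h1 := ZFSet.rank_lt_of_mem h
  rw [rank_toZFSet] at h1
  exact h1.trans_le (rank_val_le c)

theorem ostk_inj : ∀ {l₁ l₂ : List Ordinal.{u}}, l₁.length = l₂.length → ostk l₁ = ostk l₂ →
    l₁ = l₂
  | [], [], _, _ => rfl
  | [], _ :: _, h, _ => by simp at h
  | _ :: _, [], h, _ => by simp at h
  | a :: l₁, b :: l₂, h, h' => by
      rw [ostk_cons, ostk_cons] at h'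
      obtain ⟨h1, h2⟩ := opair_inj h'
      rw [h1, ostk_inj (by simpa using h) h2]

theorem ostk_ofFn_inj {n : ℕ} {f g : Fin n → Ordinal.{u}}
    (h : ostk (List.ofFn f) = ostk (List.ofFn g)) : f = g :=
  List.ofFn_injective (ostk_inj (by simp) h)

section
variable {Ω : Ordinal.{u}} [FullΩ Ω]

theorem nm_val (n : ℕ) : (nm Ω n).1 = (n : Ordinal.{u}) := rfl

theorem sat_Tmpl0 (R : ℕ) (X : Fm) (m x o y v w t : Lvl Ω) :
    (Tmpl R X).Sat (Lv Ω) (env7 (nm Ω 0) m x o y v w t) ↔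
      cVar.Sat (Lv Ω) (env7 (nm Ω 0) m x o y v w t) ∨
      (cApp R X).Sat (Lv Ω) (env7 (nm Ω 0) m x o y v w t) := by
  have h0 : nth (Lv Ω) (env7 (nm Ω 0) m x o y v w t) 0 = nm Ω 0 := by simp [env7]
  simp only [Tmpl, Fm.sat_or, Fm.sat_and, sat_num, h0, nm_val, Nat.cast_inj]
  simp

theorem sat_Tmpl1 (R : ℕ) (X : Fm) (m x o y v w t : Lvl Ω) :
    (Tmpl R X).Sat (Lv Ω) (env7 (nm Ω 1) m x o y v w t) ↔
      cNil.Sat (Lv Ω) (env7 (nm Ω 1) m x o y v w t) ∨
      (cCons X).Sat (Lv Ω) (env7 (nm Ω 1) m x o y v w t) := by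
  have h0 : nth (Lv Ω) (env7 (nm Ω 1) m x o y v w t) 0 = nm Ω 1 := by simp [env7]
  simp only [Tmpl, Fm.sat_or, Fm.sat_and, sat_num, h0, nm_val, Nat.cast_inj]
  simp

theorem sat_Tmpl2 (R : ℕ) (X : Fm) (m x o y v w t : Lvl Ω) :
    (Tmpl R X).Sat (Lv Ω) (env7 (nm Ω 2) m x o y v w t) ↔
      ((cEq X).Sat (Lv Ω) (env7 (nm Ω 2) m x o y v w t) ∨
      (cRel X).Sat (Lv Ω) (env7 (nm Ω 2) m x o y v w t) ∨
      (cSov X).Sat (Lv Ω) (env7 (nm Ω 2) m x o y v w t) ∨
      (cNeg X).Sat (Lv Ω) (env7 (nm Ω 2) m x o y v w t) ∨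
      (cAnd X).Sat (Lv Ω) (env7 (nm Ω 2) m x o y v w t) ∨
      (cAll X).Sat (Lv Ω) (env7 (nm Ω 2) m x o y v w t) ∨
      (cAllR X).Sat (Lv Ω) (env7 (nm Ω 2) m x o y v w t)) := by
  have h0 : nth (Lv Ω) (env7 (nm Ω 2) m x o y v w t) 0 = nm Ω 2 := by simp [env7]
  simp only [Tmpl, Fm.sat_or, Fm.sat_and, sat_num, h0, nm_val, Nat.cast_inj]
  simp

end

/-- `X` is correct for codes below `d`. -/
structure GoodAt (V : Vocab) (X : Fm) (d : ℕ) (Ω : Ordinal.{u}) [FullΩ Ω] {M : Type u}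
    (A : Str V M) (F : M → Ordinal.{u}) (o y v w : Lvl Ω) (e : ℕ → M) (W : SOAssign M) : Prop where
  T : ∀ (x m t : Lvl Ω) (s : Term V), s.code < d → m.1 = (s.code : Ordinal.{u}) →
    (X.Sat (Lv Ω) (env7 (nm Ω 0) m x o y v w t) ↔ x.1 = F (s.val A e))
  L : ∀ (x m t : Lvl Ω) (l : List (Term V)), codeList (l.map Term.code) < d →
    m.1 = (codeList (l.map Term.code) : Ordinal.{u}) →
    (X.Sat (Lv Ω) (env7 (nm Ω 1) m x o y v w t) ↔ x.1 = ostk (l.map (fun s => F (s.val A e))))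
  Φ : ∀ (x m t : Lvl Ω) (φ : Formula V), φ.code < d → m.1 = (φ.code : Ordinal.{u}) →
    (X.Sat (Lv Ω) (env7 (nm Ω 2) m x o y v w t) ↔ φ.Sat A e W)

theorem pair_lt_left {k c : ℕ} (hk : 1 ≤ k) : c < Nat.pair k c := by
  unfold Nat.pair
  split_ifs with h
  · nlinarith
  · nlinarith

section
variable {V : Vocab} {X : Fm} {d : ℕ} {Ω : Ordinal.{u}} [FullΩ Ω] {M : Type u}
  {A : Str V M} {F : M → Ordinal.{u}} {o y v w : Lvl Ω} {e : ℕ → M} {W : SOAssign M}

theorem pair_eq {k k' : ℕ} {r : Ordinal.{u}} {c : ℕ} :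
    opair (k : Ordinal.{u}) r = ((Nat.pair k' c : ℕ) : Ordinal.{u}) ↔
      k = k' ∧ r = (c : Ordinal.{u}) := by
  rw [← opair_nat, opair_inj_iff, Nat.cast_inj]

theorem pair_eq' {r s : Ordinal.{u}} {k c : ℕ} :
    opair r s = ((Nat.pair k c : ℕ) : Ordinal.{u}) ↔
      r = (k : Ordinal.{u}) ∧ s = (c : Ordinal.{u}) := by
  rw [← opair_nat, opair_inj_iff]

theorem F_lt (hA : Codes A F o.1 y.1) (a : M) : F a < o.1 := (hA.range _).2 ⟨a, rfl⟩

theorem ostk_lt_Ω (hA : Codes A F o.1 y.1) {n : ℕ} (a : Fin n → M) :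
    ostk (List.ofFn fun i => F (a i)) < Ω := by
  apply ostk_lt
  intro x hx
  rw [List.mem_ofFn] at hx
  obtain ⟨i, rfl⟩ := hx
  exact (F_lt hA _).trans o.2

theorem ostk_lt_Ω' (hA : Codes A F o.1 y.1) (l : List M) :
    ostk (l.map F) < Ω := by
  apply ostk_lt
  intro x hx
  rw [List.mem_map] at hx
  obtain ⟨i, _, rfl⟩ := hx
  exact (F_lt hA _).trans o.2

theorem goodT (hA : Codes A F o.1 y.1) (hv : CodesV F e v.1) (hw : CodesW F W w.1)
    (IH : GoodAt V X d Ω A F o y v w e W)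
    (x m t : Lvl Ω) (s : Term V) (hs : s.code < d + 1) (hm : m.1 = (s.code : Ordinal.{u})) :
    (Tmpl V.nRel X).Sat (Lv Ω) (env7 (nm Ω 0) m x o y v w t) ↔ x.1 = F (s.val A e) := by
  rw [sat_Tmpl0, sat_cVar, sat_cApp]
  cases s with
  | var i =>
    rw [Term.code] at hm
    simp only [hm, pair_eq]
    constructor
    · rintro (⟨i', ⟨_, h1⟩, h2⟩ | ⟨r, f, l, s, z, p, ⟨h1, _⟩, _⟩)
      · rw [h1] at h2
        exact (hv _ _).1 h2
      · omega
    · intro h
      left
      refine ⟨nm Ω i, ⟨trivial, rfl⟩, ?_⟩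
      rw [nm_val]
      exact (hv _ _).2 h
  | app f ts =>
    rw [Term.code] at hm
    simp only [hm, pair_eq]
    have hcode : (List.ofFn fun i => (ts i).code) = (List.ofFn ts).map Term.code := by
      rw [List.map_ofFn]; rfl
    have hval : (List.ofFn ts).map (fun s => F (s.val A e)) =
        List.ofFn (fun i => F ((ts i).val A e)) := by
      rw [List.map_ofFn]; rfl
    have hlt : codeList (List.ofFn fun i => (ts i).code) < d := by
      rw [Term.code] at hs
      have h1 := pair_lt_left (k := 2) (c := Nat.pair f (codeList (List.ofFn fun i => (ts i).code)))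
        (by norm_num)
      have h2 := Nat.right_le_pair (f : ℕ) (codeList (List.ofFn fun i => (ts i).code))
      omega
    have hL : ∀ (x' m' t' : Lvl Ω), m'.1 = (codeList (List.ofFn fun i => (ts i).code) : Ordinal.{u}) →
        (X.Sat (Lv Ω) (env7 (nm Ω 1) m' x' o y v w t') ↔
          x'.1 = ostk (List.ofFn (fun i => F ((ts i).val A e)))) := by
      intro x' m' t' h'
      rw [← hval]
      exact IH.L x' m' t' (List.ofFn ts) (by rw [← hcode]; exact hlt) (by rw [← hcode]; exact h')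
    constructor
    · rintro (⟨i', ⟨h1, _⟩, h2⟩ | ⟨r, f', l, s, z, p, ⟨_, h1⟩, h2, h3, h4, h5, h6, h7⟩)
      · omega
      · rw [h1, pair_eq'] at h2
        obtain ⟨h2, h2'⟩ := h2
        rw [hL _ _ _ h2'] at h3
        rw [h2, ← Nat.cast_add, add_comm] at h4
        obtain ⟨x', hx'⟩ := (hA.range x.1).1 h7
        rw [h4, ← h5, h3, ← hx'] at h6
        have h8 := (hA.fn f (fun i => (ts i).val A e) x').2 h6
        rw [← hx', Term.val, h8]
    · intro h
      right
      have hst := ostk_lt_Ω hA (fun i => (ts i).val A e)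
      refine ⟨nm Ω (Nat.pair f (codeList (List.ofFn fun i => (ts i).code))), nm Ω f,
        nm Ω (codeList (List.ofFn fun i => (ts i).code)), ⟨_, hst⟩, nm Ω (V.nRel + f), ⟨opair x.1 _,
        COrd.closed _ x.2 _ hst⟩, ⟨trivial, rfl⟩, ?_, ?_, ?_, rfl, ?_, ?_⟩
      · rw [nm_val, nm_val]; exact opair_nat _ _
      · rw [hL _ _ _ rfl]
      · rw [nm_val, nm_val, Nat.cast_add, ← Nat.cast_add, add_comm, Nat.cast_add]
      · have h8 := (hA.fn f (fun i => (ts i).val A e) _).1 rfl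
        rw [nm_val]
        show U (opair ((V.nRel + (f : ℕ) : ℕ) : Ordinal.{u}) (opair x.1 _)) y.1
        rw [h]
        exact h8
      · show x.1 < o.1
        rw [h]
        exact F_lt hA _

theorem goodL (hA : Codes A F o.1 y.1) (hv : CodesV F e v.1) (hw : CodesW F W w.1)
    (IH : GoodAt V X d Ω A F o y v w e W)
    (x m t : Lvl Ω) (l : List (Term V)) (hs : codeList (l.map Term.code) < d + 1)
    (hm : m.1 = (codeList (l.map Term.code) : Ordinal.{u})) :
    (Tmpl V.nRel X).Sat (Lv Ω) (env7 (nm Ω 1) m x o y v w t) ↔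
      x.1 = ostk (l.map (fun s => F (s.val A e))) := by
  rw [sat_Tmpl1, sat_cNil, sat_cCons]
  cases l with
  | nil =>
    simp only [List.map_nil, codeList, Nat.cast_zero] at hm
    simp only [hm, List.map_nil, ostk_nil, Nat.cast_zero, true_and]
    constructor
    · rintro (h | ⟨r, c, l, a, s, h, _⟩)
      · exact h
      · exfalso
        have h0 : (0 : Ordinal.{u}) = opair 0 0 := opair_zero_zero.symm
        rw [h0] at h
        have h1 := (opair_inj h).1
        have h2 : (1 : ℕ) = 0 := by exact_mod_cast h1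
        omega
    · exact fun h => Or.inl h
  | cons a l =>
    simp only [List.map_cons, codeList] at hm hs ⊢
    have h1 := pair_lt_left (k := 1) (c := Nat.pair a.code (codeList (l.map Term.code)))
        (by norm_num)
    have h2 := Nat.right_le_pair a.code (codeList (l.map Term.code))
    have h3 := Nat.left_le_pair a.code (codeList (l.map Term.code))
    simp only [hm, pair_eq, ostk_cons]
    constructor
    · rintro (⟨h, _⟩ | ⟨r, c, l', a', s, ⟨_, h4⟩, h5, h6, h7, h8⟩)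
      · exfalso
        have h4 : Nat.pair 1 (Nat.pair a.code (codeList (l.map Term.code))) = 0 := by
          exact_mod_cast h
        omega
      · rw [h4, pair_eq'] at h5
        rw [IH.T _ _ _ a (by omega) h5.1] at h6
        rw [IH.L _ _ _ l (by omega) h5.2] at h7
        rw [← h8, h6, h7]
    · intro h
      right
      have hst := ostk_lt_Ω' hA (l.map (fun s => s.val A e))
      rw [List.map_map] at hst
      refine ⟨nm Ω (Nat.pair a.code (codeList (l.map Term.code))), nm Ω a.code,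
        nm Ω (codeList (l.map Term.code)),
        ⟨F (a.val A e), (F_lt hA _).trans o.2⟩, ⟨_, hst⟩, ⟨trivial, rfl⟩, ?_, ?_, ?_, ?_⟩
      · rw [nm_val, nm_val]; exact opair_nat _ _
      · rw [IH.T _ _ _ a (by omega) rfl]
      · rw [IH.L _ _ _ l (by omega) rfl]
        rfl
      · rw [h]; rfl

end

end Run7.h488.SO
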