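import Pool.Agent.Run7.h488.SO.L2

/-! Piece L of MP_cba9f6_lc, part 3: correctness of the template for formulas; computability. -/

set_option autoImplicit false
set_option linter.all false

namespace Run7.h488.SO

open Run7.h936.SO Ordinal Set Run7.h505.SO

universe u

theorem exists_closed (Ω : Ordinal.{u}) [FullΩ Ω] (a : Ordinal.{u}) (ha : a < Ω) :
    ∃ γ < Ω, a < γ ∧ ω < γ ∧ Closed γ := by
  obtain ⟨γ, h1, h2, h3⟩ := FullΩ.lim (Ω := Ω) (max a ω) (max_lt ha FullΩ.omega_lt)
  exact ⟨γ, h1, (le_max_left _ _).trans_lt h2, (le_max_right _ _).trans_lt h2, h3⟩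

section
variable {V : Vocab} {X : Fm} {d : ℕ} {Ω : Ordinal.{u}} [FullΩ Ω] {M : Type u}
  {A : Str V M} {F : M → Ordinal.{u}} {o y v w : Lvl Ω} {e : ℕ → M} {W : SOAssign M}

theorem goodΦ (hA : Codes A F o.1 y.1) (hv : CodesV F e v.1) (hw : CodesW F W w.1)
    (IH : ∀ (v w : Lvl Ω) (e : ℕ → M) (W : SOAssign M), CodesV F e v.1 → CodesW F W w.1 →
      GoodAt V X d Ω A F o y v w e W)
    (x m t : Lvl Ω) (φ : Formula V) (hs : φ.code < d + 1) (hm : m.1 = (φ.code : Ordinal.{u})) :
    (Tmpl V.nRel X).Sat (Lv Ω) (env7 (nm Ω 2) m x o y v w t) ↔ φ.Sat A e W := by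
  have IH0 := IH v w e W hv hw
  rw [sat_Tmpl2, sat_cEq, sat_cRel, sat_cSov, sat_cNeg, sat_cAnd, sat_cAll, sat_cAllR]
  cases φ with
  | eq a b =>
    rw [Formula.code] at hm hs
    have h1 := pair_lt_left (k := 1) (c := Nat.pair a.code b.code) (by norm_num)
    have h2 := Nat.right_le_pair a.code b.code
    have h3 := Nat.left_le_pair a.code b.code
    simp only [hm, pair_eq]
    norm_num only [false_and, exists_false, or_false, true_and, exists_const]
    simp only [Formula.Sat]
    constructor
    · rintro ⟨r, a', b', c, h4, h5, h6, h7⟩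
      rw [h4, pair_eq'] at h5
      rw [IH0.T _ _ _ a (by omega) h5.1] at h6
      rw [IH0.T _ _ _ b (by omega) h5.2] at h7
      exact hA.inj (h6.symm.trans h7)
    · intro h
      refine ⟨nm Ω (Nat.pair a.code b.code), nm Ω a.code, nm Ω b.code,
        ⟨F (a.val A e), (F_lt hA _).trans o.2⟩, rfl, ?_, ?_, ?_⟩
      · rw [nm_val, nm_val]; exact opair_nat _ _
      · rw [IH0.T _ _ _ a (by omega) rfl]
      · rw [IH0.T _ _ _ b (by omega) rfl, ← h]
  | rel R ts =>
    rw [Formula.code] at hm hs
    have hcode : (List.ofFn fun i => (ts i).code) = (List.ofFn ts).map Term.code := by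
      rw [List.map_ofFn]; rfl
    have hval : (List.ofFn ts).map (fun s => F (s.val A e)) =
        List.ofFn (fun i => F ((ts i).val A e)) := by
      rw [List.map_ofFn]; rfl
    have hlt : codeList (List.ofFn fun i => (ts i).code) < d := by
      have h1 := pair_lt_left (k := 2) (c := Nat.pair R (codeList (List.ofFn fun i => (ts i).code)))
        (by norm_num)
      have h2 := Nat.right_le_pair (R : ℕ) (codeList (List.ofFn fun i => (ts i).code))
      omega
    have hL : ∀ (x' m' t' : Lvl Ω), m'.1 = (codeList (List.ofFn fun i => (ts i).code) : Ordinal.{u}) →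
        (X.Sat (Lv Ω) (env7 (nm Ω 1) m' x' o y v w t') ↔
          x'.1 = ostk (List.ofFn (fun i => F ((ts i).val A e)))) := by
      intro x' m' t' h'
      rw [← hval]
      exact IH0.L x' m' t' (List.ofFn ts) (by rw [← hcode]; exact hlt) (by rw [← hcode]; exact h')
    simp only [hm, pair_eq]
    norm_num only [false_and, exists_false, or_false, false_or, true_and, exists_const]
    simp only [Formula.Sat]
    rw [hA.rel]
    constructor
    · rintro ⟨r, R', l, s, h1, h2, h3, h4⟩
      rw [h1, pair_eq'] at h2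
      obtain ⟨h2, h2'⟩ := h2
      rw [hL _ _ _ h2'] at h3
      rw [h2, h3] at h4
      exact h4
    · intro h
      have hst := ostk_lt_Ω hA (fun i => (ts i).val A e)
      refine ⟨nm Ω (Nat.pair R (codeList (List.ofFn fun i => (ts i).code))), nm Ω R,
        nm Ω (codeList (List.ofFn fun i => (ts i).code)), ⟨_, hst⟩, rfl, ?_, ?_, h⟩
      · rw [nm_val, nm_val]; exact opair_nat _ _
      · rw [hL _ _ _ rfl]
  | sov n k ts =>
    rw [Formula.code] at hm hs
    have hcode : (List.ofFn fun i => (ts i).code) = (List.ofFn ts).map Term.code := by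
      rw [List.map_ofFn]; rfl
    have hval : (List.ofFn ts).map (fun s => F (s.val A e)) =
        List.ofFn (fun i => F ((ts i).val A e)) := by
      rw [List.map_ofFn]; rfl
    have hlt : codeList (List.ofFn fun i => (ts i).code) < d := by
      have h1 := pair_lt_left (k := 3) (c := Nat.pair (Nat.pair n k)
        (codeList (List.ofFn fun i => (ts i).code))) (by norm_num)
      have h2 := Nat.right_le_pair (Nat.pair n k) (codeList (List.ofFn fun i => (ts i).code))
      omega
    have hL : ∀ (x' m' t' : Lvl Ω), m'.1 = (codeList (List.ofFn fun i => (ts i).code) : Ordinal.{u}) →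
        (X.Sat (Lv Ω) (env7 (nm Ω 1) m' x' o y v w t') ↔
          x'.1 = ostk (List.ofFn (fun i => F ((ts i).val A e)))) := by
      intro x' m' t' h'
      rw [← hval]
      exact IH0.L x' m' t' (List.ofFn ts) (by rw [← hcode]; exact hlt) (by rw [← hcode]; exact h')
    simp only [hm, pair_eq]
    norm_num only [false_and, exists_false, or_false, false_or, true_and, exists_const]
    simp only [Formula.Sat]
    rw [hw]
    constructor
    · rintro ⟨r, R', l, s, h1, h2, h3, h4⟩
      rw [h1, pair_eq'] at h2
      obtain ⟨h2, h2'⟩ := h2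
      rw [hL _ _ _ h2'] at h3
      rw [h2, h3, ← opair_nat] at h4
      exact h4
    · intro h
      have hst := ostk_lt_Ω hA (fun i => (ts i).val A e)
      refine ⟨nm Ω (Nat.pair (Nat.pair n k) (codeList (List.ofFn fun i => (ts i).code))),
        nm Ω (Nat.pair n k),
        nm Ω (codeList (List.ofFn fun i => (ts i).code)), ⟨_, hst⟩, rfl, ?_, ?_, ?_⟩
      · rw [nm_val, nm_val]; exact opair_nat _ _
      · rw [hL _ _ _ rfl]
      · rw [nm_val, ← opair_nat]; exact h
  | neg φ =>
    rw [Formula.code] at hm hs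
    have h1 := pair_lt_left (k := 4) (c := φ.code) (by norm_num)
    simp only [hm, pair_eq]
    norm_num only [false_and, exists_false, or_false, false_or, true_and, exists_const]
    simp only [Formula.Sat]
    constructor
    · rintro ⟨r, h2, h3⟩
      rwa [IH0.Φ _ _ _ φ (by omega) h2] at h3
    · intro h
      refine ⟨nm Ω φ.code, rfl, ?_⟩
      rwa [IH0.Φ _ _ _ φ (by omega) rfl]
  | and φ ψ =>
    rw [Formula.code] at hm hs
    have h1 := pair_lt_left (k := 5) (c := Nat.pair φ.code ψ.code) (by norm_num)
    have h2 := Nat.right_le_pair φ.code ψ.code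
    have h3 := Nat.left_le_pair φ.code ψ.code
    simp only [hm, pair_eq]
    norm_num only [false_and, exists_false, or_false, false_or, true_and, exists_const]
    simp only [Formula.Sat]
    constructor
    · rintro ⟨r, a, b, h4, h5, h6, h7⟩
      rw [h4, pair_eq'] at h5
      rw [IH0.Φ _ _ _ φ (by omega) h5.1] at h6
      rw [IH0.Φ _ _ _ ψ (by omega) h5.2] at h7
      exact ⟨h6, h7⟩
    · intro h
      refine ⟨nm Ω (Nat.pair φ.code ψ.code), nm Ω φ.code, nm Ω ψ.code, rfl, ?_, ?_, ?_⟩
      · rw [nm_val, nm_val]; exact opair_nat _ _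
      · rw [IH0.Φ _ _ _ φ (by omega) rfl]; exact h.1
      · rw [IH0.Φ _ _ _ ψ (by omega) rfl]; exact h.2
  | all i φ =>
    rw [Formula.code] at hm hs
    have h1 := pair_lt_left (k := 6) (c := Nat.pair i φ.code) (by norm_num)
    have h2 := Nat.right_le_pair i φ.code
    simp only [hm, pair_eq]
    norm_num only [false_and, exists_false, or_false, false_or, true_and, exists_const]
    simp only [Formula.Sat]
    constructor
    · rintro ⟨r, i', b, h4, h5, h6⟩ x'
      rw [h4, pair_eq'] at h5
      obtain ⟨h5, h5'⟩ := h5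
      obtain ⟨γ, g1, g2, g3, g4⟩ := exists_closed Ω o.1 o.2
      obtain ⟨c, hc, hc'⟩ := FullΩ.full (Ω := Ω) γ g1
        {z | ∃ k : ℕ, z = opair (k : Ordinal.{u}) (F (Function.update e i x' k))} (by
          rintro z ⟨k, rfl⟩
          exact g4 _ ((natCast_lt_omega0 k).trans g3) _ ((F_lt hA _).trans g2))
      have hcv : CodesV F (Function.update e i x') c := by
        intro n ξ
        rw [hc']
        constructor
        · rintro ⟨k, hk⟩
          obtain ⟨hk1, hk2⟩ := opair_inj hk
          have : n = k := by exact_mod_cast hk1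
          subst this
          exact hk2
        · rintro rfl
          exact ⟨n, rfl⟩
      have h7 := h6 ⟨c, hc⟩ ⟨F x', (F_lt hA _).trans o.2⟩ (F_lt hA _) (by
        rintro k ξ' ⟨n, hn⟩
        show U (opair k.1 ξ'.1) c ↔ _
        rw [hn, hcv n, hv n]
        by_cases hni : n = i
        · have hki : k = i' := Subtype.ext (by rw [hn, h5, hni])
          simp only [hki, not_true_eq_false, false_and, false_or, true_and]
          rw [hni, Function.update_self]
          exact ⟨fun h => Subtype.ext h, fun h => congrArg Subtype.val h⟩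
        · have hki : ¬ k = i' := by
            intro h
            apply hni
            have := congrArg Subtype.val h
            rw [hn, h5] at this
            exact_mod_cast this
          simp only [hki, not_false_eq_true, true_and, false_and, or_false]
          rw [Function.update_of_ne hni])
      rwa [(IH ⟨c, hc⟩ w _ W hcv hw).Φ _ _ _ φ (by omega) h5'] at h7
    · intro h
      refine ⟨nm Ω (Nat.pair i φ.code), nm Ω i, nm Ω φ.code, rfl, ?_, ?_⟩
      · rw [nm_val, nm_val]; exact opair_nat _ _
      · intro v' ξ hξ hspec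
        obtain ⟨x', hx'⟩ := (hA.range ξ.1).1 hξ
        have hcv : CodesV F (Function.update e i x') v'.1 := by
          intro n ξ'
          by_cases hlt : ξ' < Ω
          · have h7 := hspec (nm Ω n) ⟨ξ', hlt⟩ ⟨n, rfl⟩
            rw [nm_val, hv n] at h7
            change U (opair (n : Ordinal.{u}) ξ') v'.1 ↔ _ at h7
            rw [h7]
            by_cases hni : n = i
            · subst hni
              simp only [not_true_eq_false, false_and, false_or, true_and]
              rw [Function.update_self, hx']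
              exact ⟨fun h => congrArg Subtype.val h, fun h => Subtype.ext h⟩
            · have hki : ¬ nm Ω n = nm Ω i := by
                intro h
                apply hni
                have := congrArg Subtype.val h
                rw [nm_val, nm_val] at this
                exact_mod_cast this
              simp only [hki, not_false_eq_true, true_and, false_and, or_false]
              rw [Function.update_of_ne hni]
          · constructor
            · intro hU
              exact absurd (((le_opair_right _ _).trans_lt (U_lt hU)).trans v'.2) hlt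
            · intro hU
              rw [hU] at hlt
              exact absurd ((F_lt hA _).trans o.2) hlt
        rw [(IH v' w _ W hcv hw).Φ _ _ _ φ (by omega) rfl]
        exact h x'
  | allR n k φ =>
    rw [Formula.code] at hm hs
    have h1 := pair_lt_left (k := 7) (c := Nat.pair (Nat.pair n k) φ.code) (by norm_num)
    have h2 := Nat.right_le_pair (Nat.pair n k) φ.code
    simp only [hm, pair_eq]
    norm_num only [false_and, exists_false, or_false, false_or, true_and, exists_const]
    simp only [Formula.Sat]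
    have hne : ∀ n' k' : ℕ, (n', k') ≠ (n, k) →
        opair (n' : Ordinal.{u}) (k' : Ordinal.{u}) ≠ ((Nat.pair n k : ℕ) : Ordinal.{u}) := by
      intro n' k' h h'
      rw [pair_eq'] at h'
      apply h
      have e1 : n' = n := by exact_mod_cast h'.1
      have e2 : k' = k := by exact_mod_cast h'.2
      rw [e1, e2]
    constructor
    · rintro ⟨r, K, b, h4, h5, h6⟩ Rn
      rw [h4, pair_eq'] at h5
      obtain ⟨h5, h5'⟩ := h5
      obtain ⟨γ, g1, g2, g3, g4⟩ := exists_closed Ω (max o.1 w.1) (max_lt o.2 w.2)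
      have hγ : 0 < γ := omega0_pos.trans g3
      obtain ⟨c, hc, hc'⟩ := FullΩ.full (Ω := Ω) γ g1
        {z | (∃ K' s : Ordinal.{u}, K' ≠ K.1 ∧ z = opair K' s ∧ U z w.1) ∨
          (∃ a : Fin n → M, Rn a ∧ z = opair K.1 (ostk (List.ofFn fun i => F (a i))))} (by
          rintro z (⟨K', s, _, _, hU⟩ | ⟨a, _, rfl⟩)
          · exact (U_lt hU).trans ((le_max_right _ _).trans_lt g2)
          · refine g4 _ ?_ _ ?_
            · rw [h5]; exact (natCast_lt_omega0 _).trans g3
            · haveI : COrd γ := ⟨g4, hγ⟩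
              apply ostk_lt
              intro x hx
              rw [List.mem_ofFn] at hx
              obtain ⟨i, rfl⟩ := hx
              exact (F_lt hA _).trans ((le_max_left _ _).trans_lt g2))
      have hcw : CodesW F (W.upd n k Rn) c := by
        intro n' k' a
        rw [hc']
        by_cases hnk : (n', k') = (n, k)
        · obtain ⟨rfl, rfl⟩ := Prod.mk.inj hnk
          rw [upd_same]
          constructor
          · intro ha
            right
            exact ⟨a, ha, by rw [h5, opair_nat]⟩
          · rintro (⟨K', s, hK, hz, _⟩ | ⟨a', ha', hz⟩)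
            · exfalso
              apply hK
              rw [← (opair_inj hz).1, h5, opair_nat]
            · have h8 := ostk_ofFn_inj (opair_inj hz).2
              have h9 : a = a' := by
                funext i
                exact hA.inj (congrFun h8 i)
              rw [h9]; exact ha'
        · rw [upd_ne _ _ hnk, hw n' k' a]
          constructor
          · intro ha
            left
            exact ⟨_, _, by rw [h5]; exact hne _ _ hnk, rfl, ha⟩
          · rintro (⟨K', s, hK, hz, hU⟩ | ⟨a', ha', hz⟩)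
            · exact hU
            · exfalso
              apply hne _ _ hnk
              rw [(opair_inj hz).1, h5]
      have h7 := h6 ⟨c, hc⟩ (by
        intro K' s hK
        have hK' : K'.1 ≠ K.1 := fun h => hK (Subtype.ext h)
        show U (opair K'.1 s.1) c ↔ _
        rw [hc']
        constructor
        · rintro (⟨_, _, _, _, hU⟩ | ⟨a', _, hz⟩)
          · exact hU
          · exact absurd (opair_inj hz).1 hK'
        · intro hU
          left
          exact ⟨_, _, hK', rfl, hU⟩)
      rwa [(IH v ⟨c, hc⟩ e _ hv hcw).Φ _ _ _ φ (by omega) h5'] at h7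
    · intro h
      refine ⟨nm Ω (Nat.pair (Nat.pair n k) φ.code), nm Ω (Nat.pair n k), nm Ω φ.code, rfl, ?_, ?_⟩
      · rw [nm_val, nm_val]; exact opair_nat _ _
      · intro w' hspec
        have hcw : CodesW F (W.upd n k (fun a => U (opair (opair (n : Ordinal.{u})
            (k : Ordinal.{u})) (ostk (List.ofFn fun i => F (a i)))) w'.1)) w'.1 := by
          intro n' k' a
          by_cases hnk : (n', k') = (n, k)
          · obtain ⟨rfl, rfl⟩ := Prod.mk.inj hnk
            rw [upd_same]
          · rw [upd_ne _ _ hnk, hw n' k' a]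
            have h7 := hspec (nm Ω (Nat.pair n' k')) ⟨_, ostk_lt_Ω hA a⟩ (by
              intro hc
              have := congrArg Subtype.val hc
              rw [nm_val, nm_val, ← opair_nat] at this
              exact hne _ _ hnk this)
            rw [nm_val, ← opair_nat] at h7
            exact h7.symm
        rw [(IH v w' e _ hv hcw).Φ _ _ _ φ (by omega) rfl]
        exact h _

end

/-- The iterated template. -/
def TT (R : ℕ) : ℕ → Fm
  | 0 => Fm.ff
  | d + 1 => Tmpl R (TT R d)

theorem good_TT (V : Vocab) (d : ℕ) (Ω : Ordinal.{u}) [FullΩ Ω] (M : Type u)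
    (A : Str V M) (F : M → Ordinal.{u}) (o y : Lvl Ω) (hA : Codes A F o.1 y.1)
    (v w : Lvl Ω) (e : ℕ → M) (W : SOAssign M) (hv : CodesV F e v.1) (hw : CodesW F W w.1) :
    GoodAt V (TT V.nRel d) d Ω A F o y v w e W := by
  induction d generalizing v w e W with
  | zero =>
    exact ⟨fun _ _ _ _ h => absurd h (Nat.not_lt_zero _),
      fun _ _ _ _ h => absurd h (Nat.not_lt_zero _),
      fun _ _ _ _ h => absurd h (Nat.not_lt_zero _)⟩
  | succ d ih =>
    exact ⟨fun x m t s hs hm => goodT hA hv hw (ih v w e W hv hw) x m t s hs hm,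
      fun x m t l hs hm => goodL hA hv hw (ih v w e W hv hw) x m t l hs hm,
      fun x m t φ hs hm => goodΦ hA hv hw (fun v w e W hv hw => ih v w e W hv hw) x m t φ hs hm⟩

/-! ### Computability of the codes -/

/-- The code of `T X` is a primitive recursive function of the code of `X`. -/
def CF (T : Fm → Fm) : Prop := ∃ h : ℕ → ℕ, Primrec h ∧ ∀ X, (T X).code = h X.code

theorem CF.id : CF (fun X => X) := ⟨_, Primrec.id, fun _ => rfl⟩
theorem CF.const (ψ : Fm) : CF (fun _ => ψ) := ⟨_, Primrec.const _, fun _ => rfl⟩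
theorem CF.nand {T S : Fm → Fm} (hT : CF T) (hS : CF S) : CF (fun X => Fm.nand (T X) (S X)) := by
  obtain ⟨h, h1, h2⟩ := hT
  obtain ⟨g, g1, g2⟩ := hS
  exact ⟨fun n => Nat.pair 1 (Nat.pair (h n) (g n)),
    Primrec₂.natPair.comp (Primrec.const _) (Primrec₂.natPair.comp h1 g1),
    fun X => by simp only [Fm.code, h2, g2]⟩
theorem CF.ex {T : Fm → Fm} (hT : CF T) : CF (fun X => Fm.ex (T X)) := by
  obtain ⟨h, h1, h2⟩ := hT
  exact ⟨fun n => Nat.pair 2 (h n), Primrec₂.natPair.comp (Primrec.const _) h1,
    fun X => by simp only [Fm.code, h2]⟩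
theorem CF.top {T : Fm → Fm} (hT : CF T) : CF (fun X => Fm.top (T X)) := by
  obtain ⟨h, h1, h2⟩ := hT
  exact ⟨fun n => Nat.pair 3 (h n), Primrec₂.natPair.comp (Primrec.const _) h1,
    fun X => by simp only [Fm.code, h2]⟩
theorem CF.not {T : Fm → Fm} (hT : CF T) : CF (fun X => Fm.not (T X)) := hT.nand hT
theorem CF.and {T S : Fm → Fm} (hT : CF T) (hS : CF S) : CF (fun X => Fm.and (T X) (S X)) :=
  (hT.nand hS).not
theorem CF.or {T S : Fm → Fm} (hT : CF T) (hS : CF S) : CF (fun X => Fm.or (T X) (S X)) :=
  hT.not.nand hS.not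
theorem CF.imp {T S : Fm → Fm} (hT : CF T) (hS : CF S) : CF (fun X => Fm.imp (T X) (S X)) :=
  hT.nand hS.not
theorem CF.all {T : Fm → Fm} (hT : CF T) : CF (fun X => Fm.all (T X)) := hT.not.ex.not

theorem CF.appAux {T : Fm → Fm} (hT : CF T) (l : List ℕ) (k : ℕ) :
    CF (fun X => Fm.appAux (T X) l k) := by
  induction l generalizing k with
  | nil => exact hT.top
  | cons i l ih => exact ((CF.const _).and (ih (k + 1))).ex

theorem CF.app {T : Fm → Fm} (hT : CF T) (l : List ℕ) (z : ℕ) :
    CF (fun X => Fm.app (T X) l z) := ((CF.const _).and (hT.appAux _ _)).ex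

theorem CF.call {T : Fm → Fm} (hT : CF T) (j i1 i2 i3 i4 i5 i6 : ℕ) :
    CF (fun X => call j (T X) i1 i2 i3 i4 i5 i6) := ((CF.const _).and (hT.app _ _)).ex

theorem CF.Tmpl (R : ℕ) : CF (Tmpl R) := by
  have c : ∀ (j i1 i2 i3 i4 i5 i6 : ℕ), CF (fun X => SO.call j X i1 i2 i3 i4 i5 i6) :=
    fun j i1 i2 i3 i4 i5 i6 => CF.id.call j i1 i2 i3 i4 i5 i6
  have k : ∀ ψ : Fm, CF (fun _ => ψ) := CF.const
  have hApp : CF (cApp R) := ((k _).and ((k _).and ((c _ _ _ _ _ _ _).and ((k _).and ((k _).and
    ((k _).and (k _))))))).ex.ex.ex.ex.ex.ex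
  have hCons : CF cCons := ((k _).and ((k _).and ((c _ _ _ _ _ _ _).and
    ((c _ _ _ _ _ _ _).and (k _))))).ex.ex.ex.ex.ex
  have hEq : CF cEq := ((k _).and ((k _).and ((c _ _ _ _ _ _ _).and
    (c _ _ _ _ _ _ _)))).ex.ex.ex.ex
  have hRel : CF cRel := ((k _).and ((k _).and ((c _ _ _ _ _ _ _).and (k _)))).ex.ex.ex.ex
  have hSov : CF cSov := ((k _).and ((k _).and ((c _ _ _ _ _ _ _).and (k _)))).ex.ex.ex.ex
  have hNeg : CF cNeg := ((k _).and (c _ _ _ _ _ _ _).not).ex
  have hAnd : CF cAnd := ((k _).and ((k _).and ((c _ _ _ _ _ _ _).and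
    (c _ _ _ _ _ _ _)))).ex.ex.ex
  have hAll : CF cAll := ((k _).and ((k _).and ((k _).imp ((k _).imp
    (c _ _ _ _ _ _ _))).all.all)).ex.ex.ex
  have hAllR : CF cAllR := ((k _).and ((k _).and ((k _).imp (c _ _ _ _ _ _ _)).all)).ex.ex.ex
  exact ((k _).and ((k _).or hApp)).or (((k _).and ((k _).or hCons)).or ((k _).and
    (hEq.or (hRel.or (hSov.or (hNeg.or (hAnd.or (hAll.or hAllR))))))))

theorem TT_primrec (R : ℕ) : Primrec (fun d => (TT R d).code) := by
  obtain ⟨h, h1, h2⟩ := CF.Tmpl R
  have : (fun d => (TT R d).code) = fun d : ℕ => h^[d] Fm.ff.code := by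
    funext d
    induction d with
    | zero => rfl
    | succ d ih =>
      rw [Function.iterate_succ_apply', ← ih]
      exact h2 _
  rw [this]
  exact Primrec.nat_iterate Primrec.id (Primrec.const _) (h1.comp₂ Primrec₂.right)

/-- PIECE L: second-order satisfaction in coded structures. -/
theorem so_truth (V : Vocab) : ∃ Θ : ℕ → Fm, Computable (fun d => (Θ d).code) ∧
    ∀ (Ω : Ordinal.{u}) [FullΩ Ω] (M : Type u) (A : Str V M) (F : M → Ordinal.{u})
      (o y v w : Lvl Ω) (e : ℕ → M) (W : SOAssign M) (t m : Lvl Ω),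
      Codes A F o.1 y.1 → CodesV F e v.1 → CodesW F W w.1 →
      ∀ (φ : Formula V) (d : ℕ), φ.code < d → m.1 = (φ.code : Ordinal.{u}) →
      ((Θ d).Sat (Lv Ω) ([m, o, y, v, w].foldr (PFun.pr (Lv Ω)) t) ↔ φ.Sat A e W) := by
  refine ⟨fun d => call 2 (TT V.nRel d) 0 0 1 2 3 4, ?_, ?_⟩
  · obtain ⟨g, g1, g2⟩ := CF.id.call 2 0 0 1 2 3 4
    have : (fun d => (call 2 (TT V.nRel d) 0 0 1 2 3 4).code) =
        fun d => g (TT V.nRel d).code := by
      funext d; exact g2 _
    rw [this]
    exact (g1.comp (TT_primrec _)).to_comp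
  · intro Ω _ M A F o y v w e W t m hA hv hw φ d hd hm
    simp only [sat_call, List.foldr_cons, List.foldr_nil, nth_pr_zero, nth_pr_succ]
    exact (good_TT V d Ω M A F o y hA v w e W hv hw).Φ _ _ _ φ hd hm

end Run7.h488.SO
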