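import Pool.Agent.Run7.h488.SO.S0

/-! Piece O2 of MP_cba9f6_lc: truth in `Lv κ⁺` is second-order expressible. -/

set_option autoImplicit false
set_option linter.all false

namespace Run7.h488.SO

open Run7.h936.SO Ordinal Set

universe u

/-- Statement of O0. -/
def StO0 (V : Vocab) : Prop := ∀ (φ : Fm) (b n : ℕ), ∃ F : Formula V,
    ∀ (M : Type u) (A : Str V M) (e : ℕ → M) (W : SOAssign M) (h : GDom W b (e n)),
      F.Sat A e W ↔ φ.Sat (grp W b) ⟨e n, h⟩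

/-- Statement of O1. -/
def StO1 (V : Vocab) : Prop := ∀ (b : ℕ), ∃ G : Formula V,
    ∀ (M : Type u) (A : Str V M) (e : ℕ → M) (W : SOAssign M),
      G.Sat A e W ↔ ∃ (δ : Ordinal.{u}) (c : {x : M // GDom W b x} ≃ Lvl δ), IsLv W b δ c

/-- Statement of O1'. -/
def StO1' (V : Vocab) : Prop := ∀ (b b' i j : ℕ) (hb : b ≠ b') (hij : i ≠ j), ∃ G : Formula V,
    ∀ (M : Type u) (A : Str V M) (e : ℕ → M) (W : SOAssign M)
      (δ δ' : Ordinal.{u}) (c : {x : M // GDom W b x} ≃ Lvl δ)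
      (c' : {x : M // GDom W b' x} ≃ Lvl δ'), IsLv W b δ c → IsLv W b' δ' c' →
      ∀ (hi : GDom W b (e i)) (hj : GDom W b' (e j)),
      (G.Sat A e W ↔ (c ⟨e i, hi⟩).1 = (c' ⟨e j, hj⟩).1)

/-- Correctness of the translation, with explicit element. -/
def TRok (V : Vocab) (φ : Fm) (b : ℕ) (F : Formula V) : Prop :=
  ∀ (M : Type u) [Infinite M] (A : Str V M) (e : ℕ → M) (W : SOAssign M), FullΩ (Om M) →
    ∀ (δ : Ordinal.{u}) (c : {x : M // GDom W b x} ≃ Lvl δ), IsLv W b δ c →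
    ∀ (x : {x : M // GDom W b x}) (a : Lvl (Om M)), e b = x.1 → a.1 = (c x).1 →
      (F.Sat A e W ↔ φ.Sat (Lv (Om M)) a)

section
variable {M : Type u} {W : SOAssign M} {b : ℕ} {δ : Ordinal.{u}}
  {c : {x : M // GDom W b x} ≃ Lvl δ}

theorem IsLv.p (h : IsLv W b δ c) (x y z : {x : M // GDom W b x}) :
    W 3 (6 * b) ![x.1, y.1, z.1] ↔ opair (c x).1 (c y).1 = (c z).1 := h.P x y z

theorem IsLv.lt (h : IsLv W b δ c) (x y z : {x : M // GDom W b x}) :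
    W 3 (6 * b + 1) ![x.1, y.1, z.1] ↔ (c x).1 < (c y).1 := h.r 2 x y z

/-- Element with a given ordinal. -/
theorem exists_el (c : {x : M // GDom W b x} ≃ Lvl δ) {a : Ordinal.{u}} (ha : a < δ) :
    ∃ x : {x : M // GDom W b x}, (c x).1 = a :=
  ⟨c.symm ⟨a, ha⟩, by rw [Equiv.apply_symm_apply]⟩

theorem IsLv.Q (h : IsLv W b δ c) (x a : {x : M // GDom W b x}) :
    (grp W b).Q x a ↔ (Lv δ).Q (c x) (c a) := by
  show (∃ t : {x : M // GDom W b x}, W 3 (6 * b) ![x.1, t.1, a.1]) ↔ of1 (c a).1 = (c x).1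
  constructor
  · rintro ⟨t, ht⟩
    rw [IsLv.p h] at ht
    rw [← ht, of1_opair]
  · intro ha
    obtain ⟨t, ht⟩ := exists_el c ((of2_le (c a).1).trans_lt (c a).2)
    exact ⟨t, by rw [IsLv.p h, ht, ← ha, opair_of]⟩

theorem IsLv.sat (h : IsLv W b δ c) (φ : Fm) (x : {x : M // GDom W b x}) :
    φ.Sat (grp W b) x ↔ φ.Sat (Lv δ) (c x) :=
  Fm.sat_iso c h.P (IsLv.Q h) h.r φ x

end

/-- Atoms are absolute. -/
theorem atom_abs {δ Ω : Ordinal.{u}} [COrd δ] [COrd Ω] (s : ℕ) (x : Lvl δ) (a : Lvl Ω)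
    (h : a.1 = x.1) : (Fm.atom s).Sat (Lv δ) x ↔ (Fm.atom s).Sat (Lv Ω) a := by
  rw [sat_atom, sat_atom]
  show orel s (of1 x.1) (of1 (of2 x.1)) (of1 (of2 (of2 x.1))) ↔
    orel s (of1 a.1) (of1 (of2 a.1)) (of1 (of2 (of2 a.1)))
  rw [h]

theorem TR_atom {V : Vocab} (h0 : StO0.{u} V) (s b : ℕ) :
    ∃ F : Formula V, TRok.{u} V (.atom s) b F := by
  obtain ⟨F, hF⟩ := h0 (.atom s) b b
  refine ⟨F, ?_⟩
  intro M _ A e W hΩ δ c hc x a hx ha
  haveI : COrd δ := hc.cord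
  have hx' : GDom W b (e b) := by rw [hx]; exact x.2
  haveI := hΩ
  have : (⟨e b, hx'⟩ : {x : M // GDom W b x}) = x := Subtype.ext hx
  rw [hF M A e W hx', IsLv.sat hc, this]
  exact atom_abs s (c x) a ha

theorem TR_nand {V : Vocab} {φ ψ : Fm} {b : ℕ} {F G : Formula V} (hF : TRok.{u} V φ b F)
    (hG : TRok.{u} V ψ b G) : TRok.{u} V (.nand φ ψ) b (.neg (.and F G)) := by
  intro M _ A e W hΩ δ c hc x a hx ha
  rw [sat_nand, sat_negF, sat_andF, hF M A e W hΩ δ c hc x a hx ha,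
    hG M A e W hΩ δ c hc x a hx ha]

theorem TR_top {V : Vocab} {φ : Fm} {b : ℕ} (hb : b < 2) {F : Formula V}
    (hF : TRok.{u} V φ b F) : TRok.{u} V (.top φ) b
      (exI 2 (.and (.eq (.var 2) (.var b)) (exI b (.and (gd b b)
        (.and (exI 3 (.and (gd b 3) (gP b b 3 2))) F))))) := by
  intro M _ A e W hΩ δ c hc x a hx ha
  rw [sat_top]
  have hb2 : b ≠ 2 := by omega
  have hb3 : b ≠ 3 := by omega
  simp only [sat_exI, sat_andF, sat_eqF, sat_gd, sat_gP, Function.update_self, ne_eq,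
    Function.update_of_ne hb2, Function.update_of_ne hb2.symm, Function.update_of_ne hb3,
    Function.update_of_ne hb3.symm, Function.update_of_ne (show (2:ℕ) ≠ 3 by norm_num)]
  rw [hx]
  constructor
  · rintro ⟨_, rfl, y, hy, ⟨z, hz, hp⟩, hFs⟩
    have hp' := (IsLv.p hc ⟨y, hy⟩ ⟨z, hz⟩ x).1 hp
    refine (hF M A _ W hΩ δ c hc ⟨y, hy⟩ _ (by rw [Function.update_self]) ?_).1 hFs
    show of1 a.1 = _
    rw [ha, ← hp', of1_opair]
  · intro hs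
    obtain ⟨y, hy⟩ := exists_el c ((of1_le (c x).1).trans_lt (c x).2)
    obtain ⟨z, hz⟩ := exists_el c ((of2_le (c x).1).trans_lt (c x).2)
    refine ⟨x.1, rfl, y.1, y.2, ⟨z.1, z.2, ?_⟩, ?_⟩
    · rw [IsLv.p hc, hy, hz, opair_of]
    · refine (hF M A _ W hΩ δ c hc y _ (by rw [Function.update_self]) ?_).2 hs
      show of1 a.1 = _
      rw [hy, ha]

theorem TR_drop {V : Vocab} {φ : Fm} {b : ℕ} (hb : b < 2) {F : Formula V}
    (hF : TRok.{u} V φ b F) : TRok.{u} V (.drop φ) b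
      (exI 2 (.and (.eq (.var 2) (.var b)) (exI b (.and (gd b b)
        (.and (exI 3 (.and (gd b 3) (exI 4 (.and (gd b 4) (.and (gP b 3 4 2)
          (exI 5 (.and (gd b 5) (exI 6 (.and (gd b 6) (.and (gP b 5 6 4) (gP b 3 6 b)))))))))))
          F))))) := by
  intro M _ A e W hΩ δ c hc x a hx ha
  rw [sat_drop]
  have hb2 : b ≠ 2 := by omega
  have hb3 : b ≠ 3 := by omega
  have hb4 : b ≠ 4 := by omega
  have hb5 : b ≠ 5 := by omega
  have hb6 : b ≠ 6 := by omega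
  have n1 : ∀ {i j : ℕ}, i ≠ j → ∀ (f : ℕ → M) (x : M), Function.update f j x i = f i :=
    fun h f x => Function.update_of_ne h x f
  simp only [sat_exI, sat_andF, sat_eqF, sat_gd, sat_gP, Function.update_self, ne_eq,
    n1 hb2, n1 hb2.symm, n1 hb3, n1 hb3.symm, n1 hb4, n1 hb4.symm, n1 hb5, n1 hb5.symm,
    n1 hb6, n1 hb6.symm, n1 (show (2:ℕ) ≠ 3 by norm_num), n1 (show (2:ℕ) ≠ 4 by norm_num),
    n1 (show (2:ℕ) ≠ 5 by norm_num), n1 (show (2:ℕ) ≠ 6 by norm_num),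
    n1 (show (3:ℕ) ≠ 4 by norm_num), n1 (show (3:ℕ) ≠ 5 by norm_num),
    n1 (show (3:ℕ) ≠ 6 by norm_num), n1 (show (4:ℕ) ≠ 5 by norm_num),
    n1 (show (4:ℕ) ≠ 6 by norm_num), n1 (show (5:ℕ) ≠ 6 by norm_num)]
  rw [hx]
  constructor
  · rintro ⟨_, rfl, y, hy, ⟨p, hp, q, hq, h1, r, hr, s, hs, h2, h3⟩, hFs⟩
    have h1' := (IsLv.p hc ⟨p, hp⟩ ⟨q, hq⟩ x).1 h1
    have h2' := (IsLv.p hc ⟨r, hr⟩ ⟨s, hs⟩ ⟨q, hq⟩).1 h2
    have h3' := (IsLv.p hc ⟨p, hp⟩ ⟨s, hs⟩ ⟨y, hy⟩).1 h3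
    refine (hF M A _ W hΩ δ c hc ⟨y, hy⟩ _ (by rw [Function.update_self]) ?_).1 hFs
    show opair (of1 a.1) (of2 (of2 a.1)) = _
    rw [← h3', ha, ← h1', ← h2', of1_opair, of2_opair, of2_opair]
  · intro hs
    haveI : COrd δ := hc.cord
    have l1 := (of1_le (c x).1).trans_lt (c x).2
    have l2 := (of2_le (c x).1).trans_lt (c x).2
    obtain ⟨p, hp⟩ := exists_el c l1
    obtain ⟨q, hq⟩ := exists_el c l2
    obtain ⟨r, hr⟩ := exists_el c ((of1_le (of2 (c x).1)).trans_lt l2)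
    obtain ⟨s, hs'⟩ := exists_el c ((of2_le (of2 (c x).1)).trans_lt l2)
    obtain ⟨y, hy⟩ := exists_el c (COrd.closed (δ := δ) _ l1 _ ((of2_le (of2 (c x).1)).trans_lt l2))
    refine ⟨x.1, rfl, y.1, y.2, ⟨p.1, p.2, q.1, q.2, ?_, r.1, r.2, s.1, s.2, ?_, ?_⟩, ?_⟩
    · rw [IsLv.p hc, hp, hq, opair_of]
    · rw [IsLv.p hc, hr, hs', hq, opair_of]
    · rw [IsLv.p hc, hp, hs', hy]
    · refine (hF M A _ W hΩ δ c hc y _ (by rw [Function.update_self]) ?_).2 hs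
      show opair (of1 a.1) (of2 (of2 a.1)) = _
      rw [hy, ha]

theorem TR_ex {V : Vocab} (h1 : StO1.{u} V) (h1' : StO1'.{u} V) {φ : Fm} {b b' : ℕ}
    (hbb : b ≠ b') (hb : b < 2) (hb' : b' < 2) {F : Formula V} (hF : TRok.{u} V φ b' F) :
    ∃ F' : Formula V, TRok.{u} V (.ex φ) b F' := by
  obtain ⟨G, hG⟩ := h1 b'
  have hb2 : b ≠ 2 := by omega
  have hb3 : b ≠ 3 := by omega
  have hc2 : b' ≠ 2 := by omega
  have hc3 : b' ≠ 3 := by omega
  obtain ⟨S, hS⟩ := h1' b b' b 2 hbb hb2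
  refine ⟨exG b' (exI b' (.and G (.and (gd b' b') (.and
    (exI 2 (.and (gd b' 2) (.and (exI 3 (.and (gd b' 3) (gP b' 3 2 b'))) S))) F)))), ?_⟩
  intro M _ A e W hΩ δ c hc x a hx ha
  haveI := hΩ
  have n1 : ∀ {i j : ℕ}, i ≠ j → ∀ (f : ℕ → M) (x : M), Function.update f j x i = f i :=
    fun h f x => Function.update_of_ne h x f
  rw [sat_exG, sat_ex]
  simp only [sat_exI, sat_andF, sat_gd, sat_gP, Function.update_self,
    n1 hb2, n1 hb2.symm, n1 hb3, n1 hb3.symm, n1 hc2, n1 hc2.symm, n1 hc3, n1 hc3.symm,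
    n1 hbb, n1 hbb.symm, n1 (show (2:ℕ) ≠ 3 by norm_num), hG]
  constructor
  · rintro ⟨D, R, y, ⟨δ', c', hc'⟩, hy, ⟨z, hz, ⟨p, hp, h3⟩, h4⟩, h5⟩
    obtain ⟨c2, hc2', hc2e⟩ := IsLv.agree hc (agree_updG W hbb D R)
    have hxd : GDom (updG W b' D R) b x.1 := ((agree_updG W hbb D R).gdom _).2 x.2
    have e1 : Function.update (Function.update e b' y) 2 z b = x.1 := by
      rw [n1 hb2, n1 hbb, hx]
    have e2 : Function.update (Function.update e b' y) 2 z 2 = z := Function.update_self _ _ _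
    have h6 := (hS M A (Function.update (Function.update e b' y) 2 z) (updG W b' D R) δ δ' c2 c'
      hc2' hc' (by rw [e1]; exact hxd) (by rw [e2]; exact hz)).1 h4
    have e3 : (⟨Function.update (Function.update e b' y) 2 z b, by rw [e1]; exact hxd⟩ :
        {x : M // GDom (updG W b' D R) b x}) = ⟨x.1, hxd⟩ := Subtype.ext e1
    have e4 : (⟨Function.update (Function.update e b' y) 2 z 2, by rw [e2]; exact hz⟩ :
        {x : M // GDom (updG W b' D R) b' x}) = ⟨z, hz⟩ := Subtype.ext e2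
    rw [e3, e4, hc2e x.1 x.2 hxd, ← ha] at h6
    have h3' := (IsLv.p hc' ⟨p, hp⟩ ⟨z, hz⟩ ⟨y, hy⟩).1 h3
    have hlt : δ' < Om M := lv_lt_Om c'
    refine ⟨⟨(c' ⟨p, hp⟩).1, (c' ⟨p, hp⟩).2.trans hlt⟩, ?_⟩
    refine (hF M A _ _ hΩ δ' c' hc' ⟨y, hy⟩ _ (by rw [Function.update_self]) ?_).1 h5
    show opair _ a.1 = _
    rw [← h3', h6]
  · rintro ⟨y, hy⟩
    obtain ⟨δ', hδ1, hδ2, hδ3⟩ := FullΩ.lim (Ω := Om M) _ (PFun.pr (Lv (Om M)) y a).2
    have hcd : COrd δ' := ⟨hδ3, lt_of_le_of_lt zero_le hδ2⟩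
    obtain ⟨j, hj⟩ := exists_emb hδ1
    obtain ⟨D, R, c', hc', hjc⟩ := exists_grp W b' hcd j hj
    have hδ2' : opair y.1 a.1 < δ' := hδ2
    have la : a.1 < δ' := (le_opair_right _ _).trans_lt hδ2'
    have ly : y.1 < δ' := (le_opair_left _ _).trans_lt hδ2'
    obtain ⟨q, hq⟩ := exists_el c' hδ2'
    obtain ⟨z, hz⟩ := exists_el c' la
    obtain ⟨p, hp⟩ := exists_el c' ly
    obtain ⟨c2, hc2', hc2e⟩ := IsLv.agree hc (agree_updG W hbb D R)
    have hxd : GDom (updG W b' D R) b x.1 := ((agree_updG W hbb D R).gdom _).2 x.2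
    have e1 : Function.update (Function.update e b' q.1) 2 z.1 b = x.1 := by
      rw [n1 hb2, n1 hbb, hx]
    have e2 : Function.update (Function.update e b' q.1) 2 z.1 2 = z.1 := Function.update_self _ _ _
    refine ⟨D, R, q.1, ⟨δ', c', hc'⟩, q.2, ⟨z.1, z.2, ⟨p.1, p.2, ?_⟩, ?_⟩, ?_⟩
    · rw [IsLv.p hc', hp, hz, hq]
    · refine (hS M A (Function.update (Function.update e b' q.1) 2 z.1) (updG W b' D R) δ δ' c2 c'
        hc2' hc' (by rw [e1]; exact hxd) (by rw [e2]; exact z.2)).2 ?_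
      have e3 : (⟨Function.update (Function.update e b' q.1) 2 z.1 b, by rw [e1]; exact hxd⟩ :
          {x : M // GDom (updG W b' D R) b x}) = ⟨x.1, hxd⟩ := Subtype.ext e1
      have e4 : (⟨Function.update (Function.update e b' q.1) 2 z.1 2, by rw [e2]; exact z.2⟩ :
          {x : M // GDom (updG W b' D R) b' x}) = z := Subtype.ext e2
      rw [e3, e4, hc2e x.1 x.2 hxd, ← ha, hz]
    · refine (hF M A _ _ hΩ δ' c' hc' q _ (by rw [Function.update_self]) ?_).2 hy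
      show opair y.1 a.1 = _
      rw [hq]

theorem TR_ok {V : Vocab} (h0 : StO0.{u} V) (h1 : StO1.{u} V) (h1' : StO1'.{u} V) (φ : Fm) :
    ∀ b < 2, ∃ F : Formula V, TRok.{u} V φ b F := by
  induction φ with
  | atom s => exact fun b _ => TR_atom h0 s b
  | nand φ ψ ih1 ih2 =>
    intro b hb
    obtain ⟨F, hF⟩ := ih1 b hb
    obtain ⟨G, hG⟩ := ih2 b hb
    exact ⟨_, TR_nand hF hG⟩
  | ex φ ih =>
    intro b hb
    obtain ⟨F, hF⟩ := ih (1 - b) (by omega)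
    exact TR_ex h1 h1' (by omega) hb (by omega) hF
  | top φ ih =>
    intro b hb
    obtain ⟨F, hF⟩ := ih b hb
    exact ⟨_, TR_top hb hF⟩
  | drop φ ih =>
    intro b hb
    obtain ⟨F, hF⟩ := ih b hb
    exact ⟨_, TR_drop hb hF⟩

/-- PIECE O2. -/
theorem TR_exists (V : Vocab) (h0 : StO0.{u} V) (h1 : StO1.{u} V) (h1' : StO1'.{u} V)
    (φ : Fm) (b : ℕ) (hb : b < 2) : ∃ F : Formula V,
    ∀ (M : Type u) [Infinite M] (A : Str V M) (e : ℕ → M) (W : SOAssign M), FullΩ (Om M) →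
      ∀ (δ : Ordinal.{u}) (c : {x : M // GDom W b x} ≃ Lvl δ), IsLv W b δ c →
      ∀ (h : GDom W b (e b)) (a : Lvl (Om M)), a.1 = (c ⟨e b, h⟩).1 →
      (F.Sat A e W ↔ φ.Sat (Lv (Om M)) a) := by
  obtain ⟨F, hF⟩ := TR_ok h0 h1 h1' φ b hb
  exact ⟨F, fun M _ A e W hΩ δ c hc h a ha => hF M A e W hΩ δ c hc ⟨e b, h⟩ a rfl ha⟩

end Run7.h488.SO
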