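import Pool.Agent.Run7.h488.SO.O2
import Pool.Agent.Run7.h488.SO.L3
import Pool.Agent.Run7.h488.SO.G

/-! Piece O4 of MP_cba9f6_lc: assembly of the second-order side. -/

set_option autoImplicit false
set_option linter.all false

namespace Run7.h488.SO

open Run7.h936.SO Ordinal Set

universe u

/-- Statement of O3. -/
def StO3 (V : Vocab) : Prop := ∀ (b i j : ℕ), ∃ G : Formula V,
    ∀ (M : Type u) (A : Str V M) (e : ℕ → M) (W : SOAssign M)
      (δ : Ordinal.{u}) (c : {x : M // GDom W b x} ≃ Lvl δ), IsLv W b δ c → ω ≤ δ →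
      ∀ (hi : GDom W b (e i)) (hj : GDom W b (e j)),
      (G.Sat A e W ↔ ∃ F : M → Ordinal.{u}, Codes A F (c ⟨e i, hi⟩).1 (c ⟨e j, hj⟩).1)

/-- The formula saying that `x_l` is a code of the structure. -/
def codF {V : Vocab} (G : Formula V) (l : ℕ) : Formula V :=
  exI 3 (exI 4 (.and (gd 0 3) (.and (gd 0 4) (.and (gP 0 3 4 l) G))))

theorem sat_codF {V : Vocab} {G : Formula V}
    (hG : ∀ (M : Type u) (A : Str V M) (e : ℕ → M) (W : SOAssign M)
      (δ : Ordinal.{u}) (c : {x : M // GDom W 0 x} ≃ Lvl δ), IsLv W 0 δ c → ω ≤ δ →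
      ∀ (hi : GDom W 0 (e 3)) (hj : GDom W 0 (e 4)),
      (G.Sat A e W ↔ ∃ F : M → Ordinal.{u}, Codes A F (c ⟨e 3, hi⟩).1 (c ⟨e 4, hj⟩).1))
    {l : ℕ} (h3 : l ≠ 3) (h4 : l ≠ 4)
    {M : Type u} (A : Str V M) (e : ℕ → M) (W : SOAssign M)
    {δ : Ordinal.{u}} {c : {x : M // GDom W 0 x} ≃ Lvl δ} (hc : IsLv W 0 δ c) (hω : ω ≤ δ)
    (x : {x : M // GDom W 0 x}) (hx : e l = x.1) :
    (codF G l).Sat A e W ↔ IsCode A (c x).1 := by
  have n1 : ∀ {i j : ℕ}, i ≠ j → ∀ (f : ℕ → M) (x : M), Function.update f j x i = f i :=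
    fun h f x => Function.update_of_ne h x f
  simp only [codF, sat_exI, sat_andF, sat_gd, sat_gP, Function.update_self, n1 h3, n1 h4,
    n1 (show (3:ℕ) ≠ 4 by norm_num), hx]
  have key : ∀ p q : {x : M // GDom W 0 x},
      G.Sat A (Function.update (Function.update e 3 p.1) 4 q.1) W ↔
        ∃ F : M → Ordinal.{u}, Codes A F (c p).1 (c q).1 := by
    intro p q
    have e3 : Function.update (Function.update e 3 p.1) 4 q.1 3 = p.1 := by
      rw [n1 (show (3:ℕ) ≠ 4 by norm_num), Function.update_self]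
    have e4 : Function.update (Function.update e 3 p.1) 4 q.1 4 = q.1 := Function.update_self _ _ _
    rw [hG M A _ W δ c hc hω (by rw [e3]; exact p.2) (by rw [e4]; exact q.2)]
    have f3 : (⟨Function.update (Function.update e 3 p.1) 4 q.1 3, by rw [e3]; exact p.2⟩ :
      {x : M // GDom W 0 x}) = p := Subtype.ext e3
    have f4 : (⟨Function.update (Function.update e 3 p.1) 4 q.1 4, by rw [e4]; exact q.2⟩ :
      {x : M // GDom W 0 x}) = q := Subtype.ext e4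
    rw [f3, f4]
  constructor
  · rintro ⟨p, q, hp, hq, h5, h6⟩
    have h5' := (IsLv.p hc ⟨p, hp⟩ ⟨q, hq⟩ x).1 h5
    obtain ⟨F, hF⟩ := (key ⟨p, hp⟩ ⟨q, hq⟩).1 h6
    refine ⟨F, ?_⟩
    rw [← h5', of1_opair, of2_opair]
    exact hF
  · rintro ⟨F, hF⟩
    obtain ⟨p, hp⟩ := exists_el c ((of1_le (c x).1).trans_lt (c x).2)
    obtain ⟨q, hq⟩ := exists_el c ((of2_le (c x).1).trans_lt (c x).2)
    refine ⟨p.1, q.1, p.2, q.2, ?_, ?_⟩
    · rw [IsLv.p hc, hp, hq, opair_of]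
    · rw [key p q, hp, hq]
      exact ⟨F, hF⟩

/-- The formula saying that `x_0 = ⟨x, 0⟩` for the least code `x`. -/
def minF {V : Vocab} (G : Formula V) : Formula V :=
  exI 2 (exI 5 (.and (gd 0 2) (.and (gd 0 5) (.and (gP 0 2 5 0)
    (.and (.all 6 (impF (gd 0 6) (.neg (gL 0 6 5))))
    (.and (codF G 2) (.all 6 (impF (.and (gd 0 6) (gL 0 6 2)) (.neg (codF G 6))))))))))

theorem sat_minF {V : Vocab} {G : Formula V}
    (hG : ∀ (M : Type u) (A : Str V M) (e : ℕ → M) (W : SOAssign M)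
      (δ : Ordinal.{u}) (c : {x : M // GDom W 0 x} ≃ Lvl δ), IsLv W 0 δ c → ω ≤ δ →
      ∀ (hi : GDom W 0 (e 3)) (hj : GDom W 0 (e 4)),
      (G.Sat A e W ↔ ∃ F : M → Ordinal.{u}, Codes A F (c ⟨e 3, hi⟩).1 (c ⟨e 4, hj⟩).1))
    {M : Type u} (A : Str V M) (e : ℕ → M) (W : SOAssign M)
    {δ : Ordinal.{u}} {c : {x : M // GDom W 0 x} ≃ Lvl δ} (hc : IsLv W 0 δ c) (hω : ω ≤ δ)
    (y : {x : M // GDom W 0 x}) (hy : e 0 = y.1)
    {x : Ordinal.{u}} (hx : IsCode A x) (hmin : ∀ x' < x, ¬ IsCode A x') :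
    (minF G).Sat A e W ↔ (c y).1 = opair x 0 := by
  have n1 : ∀ {i j : ℕ}, i ≠ j → ∀ (f : ℕ → M) (x : M), Function.update f j x i = f i :=
    fun h f x => Function.update_of_ne h x f
  have n02 : (0:ℕ) ≠ 2 := by norm_num
  have n05 : (0:ℕ) ≠ 5 := by norm_num
  have n25 : (2:ℕ) ≠ 5 := by norm_num
  have n56 : (5:ℕ) ≠ 6 := by norm_num
  have n26 : (2:ℕ) ≠ 6 := by norm_num
  simp only [minF, sat_exI, sat_andF, sat_gd, sat_gP, sat_gL, sat_allF, sat_impF, sat_negF,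
    Function.update_self, n1 n02, n1 n05, n1 n25, n1 n56, n1 n26, hy]
  have hcod : ∀ z p : {x : M // GDom W 0 x},
      (codF G 2).Sat A (Function.update (Function.update e 2 z.1) 5 p.1) W ↔
        IsCode A (c z).1 := by
    intro z p
    exact sat_codF hG (by norm_num) (by norm_num) A _ W hc hω z
      (by rw [n1 n25, Function.update_self])
  have hcod' : ∀ (f : ℕ → M) (z : {x : M // GDom W 0 x}),
      (codF G 6).Sat A (Function.update f 6 z.1) W ↔ IsCode A (c z).1 := by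
    intro f z
    exact sat_codF hG (by norm_num) (by norm_num) A _ W hc hω z (by rw [Function.update_self])
  constructor
  · rintro ⟨z, p, hz, hp, h1, h2, h3, h4⟩
    have h1' := (IsLv.p hc ⟨z, hz⟩ ⟨p, hp⟩ y).1 h1
    have h3' := (hcod ⟨z, hz⟩ ⟨p, hp⟩).1 h3
    have hp0 : (c ⟨p, hp⟩).1 = 0 := by
      by_contra hne
      have hpos : 0 < (c ⟨p, hp⟩).1 := pos_iff_ne_zero.2 hne
      obtain ⟨q, hq⟩ := exists_el c (hpos.trans (c ⟨p, hp⟩).2)
      apply h2 q.1 q.2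
      rw [show (![q.1, p, q.1] : Fin 3 → M) = ![q.1, (⟨p, hp⟩ : {x : M // GDom W 0 x}).1, q.1]
        from rfl, IsLv.lt hc, hq]
      exact hpos
    rw [← h1', hp0]
    congr 1
    rcases lt_trichotomy (c ⟨z, hz⟩).1 x with hlt | heq | hgt
    · exact absurd h3' (hmin _ hlt)
    · exact heq
    · exfalso
      obtain ⟨q, hq⟩ := exists_el c (hgt.trans (c ⟨z, hz⟩).2)
      refine h4 q.1 ⟨q.2, ?_⟩ ((hcod' _ q).2 (by rw [hq]; exact hx))
      rw [show (![q.1, z, q.1] : Fin 3 → M) = ![q.1, (⟨z, hz⟩ : {x : M // GDom W 0 x}).1, q.1]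
        from rfl, IsLv.lt hc, hq]
      exact hgt
  · intro h
    have hxδ : x < δ := lt_of_le_of_lt (le_opair_left _ _) (h ▸ (c y).2)
    have h0δ : 0 < δ := lt_of_le_of_lt zero_le (c y).2
    obtain ⟨z, hz⟩ := exists_el c hxδ
    obtain ⟨p, hp⟩ := exists_el c h0δ
    refine ⟨z.1, p.1, z.2, p.2, ?_, ?_, ?_, ?_⟩
    · rw [IsLv.p hc, hz, hp, h]
    · intro q hq hlt
      have := (IsLv.lt hc ⟨q, hq⟩ p ⟨q, hq⟩).1 hlt
      rw [hp] at this
      exact absurd this (not_lt.2 zero_le)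
    · rw [hcod z p, hz]; exact hx
    · rintro q ⟨hq, hlt⟩ hco
      have h5 := (IsLv.lt hc ⟨q, hq⟩ z ⟨q, hq⟩).1 hlt
      rw [hz] at h5
      exact hmin _ h5 ((hcod' _ ⟨q, hq⟩).1 hco)

theorem omega_le_of_closed {δ : Ordinal.{u}} (h : Closed δ) (h2 : 1 < δ) : ω ≤ δ := by
  have h3 : 2 ≤ δ := by
    have h4 : Order.succ (1 : Ordinal.{u}) ≤ δ := Order.succ_le_of_lt h2
    have h5 : Order.succ (1 : Ordinal.{u}) = 2 := by
      rw [Order.succ_eq_add_one]; exact one_add_one_eq_two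
    rwa [h5] at h4
  exact omega0_le.2 fun n => (two_le_closed_omega h h3 n).le

/-- PIECE O4 (assembly). -/
theorem so_side (V : Vocab) (h0 : StO0.{u} V) (h1 : StO1.{u} V) (h1' : StO1'.{u} V)
    (h3 : StO3.{u} V) (ψ : Fm) : ∃ χ : Formula V,
    ∀ (M : Type u) [Infinite M] (A : Str V M) [FullΩ (Om M)] (x : Lvl (Om M)),
      IsCode A x.1 → (∀ x' < x.1, ¬ IsCode A x') →
      (A.Models χ ↔ ψ.Sat (Lv (Om M)) (PFun.pr (Lv (Om M)) x (PFun.z0 (Lv (Om M))))) := by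
  obtain ⟨G, hG⟩ := h3 0 3 4
  obtain ⟨Good, hGood⟩ := h1 0
  obtain ⟨F, hF⟩ := TR_ok h0 h1 h1' ψ 0 (by norm_num)
  refine ⟨exG 0 (exI 0 (.and Good (.and (gd 0 0) (.and
    (exI 7 (exI 8 (.and (gd 0 7) (.and (gd 0 8) (gL 0 7 8))))) (.and (minF G) F))))), ?_⟩
  intro M _ A hΩ x hx hmin
  have n1 : ∀ {i j : ℕ}, i ≠ j → ∀ (f : ℕ → M) (x : M), Function.update f j x i = f i :=
    fun h f x => Function.update_of_ne h x f
  have n07 : (0:ℕ) ≠ 7 := by norm_num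
  have n08 : (0:ℕ) ≠ 8 := by norm_num
  have n78 : (7:ℕ) ≠ 8 := by norm_num
  constructor
  · intro hM
    obtain ⟨m₀⟩ := (inferInstance : Nonempty M)
    have h := hM (fun _ => m₀) (fun _ _ _ => True)
    rw [sat_exG] at h
    simp only [sat_exI, sat_andF, sat_gd, sat_gP, sat_gL, sat_allF, sat_impF, sat_negF,
      Function.update_self, n1 n07, n1 n08, n1 n78, hGood] at h
    obtain ⟨D, R, y, ⟨δ, c, hc⟩, hy, ⟨p, q, hp, hq, hlt⟩, hmn, hFs⟩ := h
    have hlt' := (IsLv.lt hc ⟨p, hp⟩ ⟨q, hq⟩ ⟨p, hp⟩).1 hlt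
    have h1δ : 1 < δ :=
      (Order.one_le_iff_pos.2 (lt_of_le_of_lt zero_le hlt')).trans_lt (c ⟨q, hq⟩).2
    have hω : ω ≤ δ := omega_le_of_closed hc.cord.closed h1δ
    have h5 := (sat_minF hG A _ _ hc hω ⟨y, hy⟩ (by rw [Function.update_self]) hx hmin).1 hmn
    exact (hF M A _ _ hΩ δ c hc ⟨y, hy⟩ (PFun.pr (Lv (Om M)) x (PFun.z0 (Lv (Om M))))
      (by rw [Function.update_self]) (by rw [h5]; rfl)).1 hFs
  · intro hs e W
    rw [sat_exG]
    simp only [sat_exI, sat_andF, sat_gd, sat_gP, sat_gL, sat_allF, sat_impF, sat_negF,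
      Function.update_self, n1 n07, n1 n08, n1 n78, hGood]
    obtain ⟨δ, g1, g2, g3, g4⟩ := exists_closed (Om M) (opair x.1 0)
      (COrd.closed _ x.2 _ COrd.pos)
    have hcd : COrd δ := ⟨g4, omega0_pos.trans g3⟩
    obtain ⟨j, hj⟩ := exists_emb g1
    obtain ⟨D, R, c, hc, _⟩ := exists_grp W 0 hcd j hj
    obtain ⟨y, hy⟩ := exists_el c g2
    obtain ⟨p, hp⟩ := exists_el c (omega0_pos.trans g3)
    obtain ⟨q, hq⟩ := exists_el c (one_lt_omega0.trans g3)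
    refine ⟨D, R, y.1, ⟨δ, c, hc⟩, y.2, ⟨p.1, q.1, p.2, q.2, ?_⟩, ?_, ?_⟩
    · rw [IsLv.lt hc, hp, hq]; exact zero_lt_one
    · exact (sat_minF hG A _ _ hc g3.le y (by rw [Function.update_self]) hx hmin).2 hy
    · exact (hF M A _ _ hΩ δ c hc y (PFun.pr (Lv (Om M)) x (PFun.z0 (Lv (Om M))))
        (by rw [Function.update_self]) (by rw [hy]; rfl)).2 hs

end Run7.h488.SO
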