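import Pool.Agent.Run7.h936.SO.Core2
import Pool.Agent.Run7.h936.SO.Groups
import Pool.Agent.Run7.h488.SO.L3

/-! Pieces P1a and P1c of MP_cba9f6_lc. -/

set_option autoImplicit false
set_option linter.all false

namespace Run7.h488.SO

open Run7.h936.SO Ordinal Set Run7.h505.SO

universe u

/-! ### Computable families of formulas -/

/-- The codes of the family `T` are computable. -/
def CC (T : ℕ → Fm) : Prop := Computable (fun m => (T m).code)

theorem CC.const (ψ : Fm) : CC (fun _ => ψ) := Computable.const _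
theorem CC.nand {T S : ℕ → Fm} (hT : CC T) (hS : CC S) : CC (fun m => Fm.nand (T m) (S m)) :=
  (Primrec₂.natPair.to_comp.comp (Computable.const 1) (Primrec₂.natPair.to_comp.comp hT hS))
theorem CC.ex {T : ℕ → Fm} (hT : CC T) : CC (fun m => Fm.ex (T m)) :=
  Primrec₂.natPair.to_comp.comp (Computable.const 2) hT
theorem CC.top {T : ℕ → Fm} (hT : CC T) : CC (fun m => Fm.top (T m)) :=
  Primrec₂.natPair.to_comp.comp (Computable.const 3) hT
theorem CC.not {T : ℕ → Fm} (hT : CC T) : CC (fun m => Fm.not (T m)) := hT.nand hT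
theorem CC.and {T S : ℕ → Fm} (hT : CC T) (hS : CC S) : CC (fun m => Fm.and (T m) (S m)) :=
  (hT.nand hS).not
theorem CC.or {T S : ℕ → Fm} (hT : CC T) (hS : CC S) : CC (fun m => Fm.or (T m) (S m)) :=
  hT.not.nand hS.not
theorem CC.imp {T S : ℕ → Fm} (hT : CC T) (hS : CC S) : CC (fun m => Fm.imp (T m) (S m)) :=
  hT.nand hS.not
theorem CC.all {T : ℕ → Fm} (hT : CC T) : CC (fun m => Fm.all (T m)) := hT.not.ex.not
theorem CC.appAux {T : ℕ → Fm} (hT : CC T) (l : List ℕ) (k : ℕ) :
    CC (fun m => Fm.appAux (T m) l k) := by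
  induction l generalizing k with
  | nil => exact hT.top
  | cons i l ih => exact ((CC.const _).and (ih (k + 1))).ex
theorem CC.app {T : ℕ → Fm} (hT : CC T) (l : List ℕ) (z : ℕ) :
    CC (fun m => Fm.app (T m) l z) := ((CC.const _).and (hT.appAux _ _)).ex
theorem CC.rec {S : Fm → Fm} (hS : CF S) {T : ℕ → Fm} (h : ∀ n, T (n + 1) = S (T n)) : CC T := by
  obtain ⟨f, f1, f2⟩ := hS
  have : (fun d => (T d).code) = fun d : ℕ => f^[d] (T 0).code := by
    funext d
    induction d with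
    | zero => rfl
    | succ d ih =>
      rw [Function.iterate_succ_apply', ← ih, h, f2]
  show Computable _
  rw [this]
  exact (Primrec.nat_iterate Primrec.id (Primrec.const _) (f1.comp₂ Primrec₂.right)).to_comp

theorem num_succ (n : ℕ) : num (n + 1) 0 = Fm.ex (Fm.and (num n 0) (sf 0 1)) := rfl

theorem CC.num : CC (fun m => num m 0) :=
  CC.rec (S := fun X => Fm.ex (Fm.and X (sf 0 1))) ((CF.id.and (CF.const (sf 0 1))).ex) num_succ

/-- The formula expressing `A ⊨ φ` (`m` the code of `φ`). -/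
def AmF (Θ : ℕ → Fm) (m : ℕ) : Fm :=
  Fm.ex (Fm.ex (Fm.ex (Fm.and (Fm.prv 2 1 3) (Fm.and (num m 0) (Fm.all (Fm.all (Fm.imp
    (Fm.all (Fm.imp (nf 0) (Fm.ex (Fm.and (Fm.ltv 0 6)
      (Fm.all (Fm.iff (U2 2 0 4) (Fm.eqv 0 1)))))))
    (Fm.app (Θ (m + 1)) [2, 4, 3, 1, 0] 0))))))))

theorem am_exists (V : Vocab) : ∃ Am : ℕ → Fm, Computable (fun m => (Am m).code) ∧
    ∀ (Ω : Ordinal.{u}) [FullΩ Ω] (M : Type u) (A : Str V M) (F : M → Ordinal.{u})
      (x t : Lvl Ω), Codes A F (of1 x.1) (of2 x.1) → ∀ φ : Formula V,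
      ((Am φ.code).Sat (Lv Ω) (PFun.pr (Lv Ω) x t) ↔ A.Models φ) := by
  obtain ⟨Θ, hΘ1, hΘ2⟩ := so_truth.{u} V
  refine ⟨AmF Θ, ?_, ?_⟩
  · have k : ∀ ψ : Fm, CC (fun _ => ψ) := CC.const
    have hT : CC (fun m => Θ (m + 1)) := hΘ1.comp (Primrec.succ.to_comp)
    exact ((k _).and (CC.num.and ((k _).imp (hT.app _ _)).all.all)).ex.ex.ex
  · intro Ω _ M A F x t hA φ
    set o : Lvl Ω := PFun.f1 (Lv Ω) x with ho
    set y : Lvl Ω := PFun.f2 (Lv Ω) x with hy
    have hA' : Codes A F o.1 y.1 := hA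
    simp only [AmF, Fm.sat_ex', Fm.sat_and, Fm.sat_all, Fm.sat_imp, Fm.sat_iff, Fm.sat_prv,
      Fm.sat_eqv, sat_num, sat_nf, sat_ltv, sat_U2, Fm.sat_app, nth_pr_zero, nth_pr_succ,
      List.map_cons, List.map_nil, List.foldr_cons, List.foldr_nil]
    constructor
    · rintro ⟨o', y', c, h1, h2, h3⟩ e W
      have ho' : o' = o := by rw [ho, ← h1]; simp
      have hy' : y' = y := by rw [hy, ← h1]; simp
      subst ho' hy'
      obtain ⟨γ, g1, g2, g3, g4⟩ := exists_closed Ω o.1 o.2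
      haveI : COrd γ := ⟨g4, omega0_pos.trans g3⟩
      obtain ⟨v, hv, hv'⟩ := FullΩ.full (Ω := Ω) γ g1
        {z | ∃ k : ℕ, z = opair (k : Ordinal.{u}) (F (e k))} (by
          rintro z ⟨k, rfl⟩
          exact g4 _ ((natCast_lt_omega0 k).trans g3) _ ((F_lt hA' _).trans g2))
      have hcv : CodesV F e v := by
        intro n ξ
        rw [hv']
        constructor
        · rintro ⟨k, hk⟩
          obtain ⟨hk1, hk2⟩ := opair_inj hk
          have : n = k := by exact_mod_cast hk1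
          subst this
          exact hk2
        · rintro rfl
          exact ⟨n, rfl⟩
      obtain ⟨w, hw, hw'⟩ := FullΩ.full (Ω := Ω) γ g1
        {z | ∃ (n k : ℕ) (a : Fin n → M), W n k a ∧ z = opair (opair (n : Ordinal.{u})
          (k : Ordinal.{u})) (ostk (List.ofFn fun i => F (a i)))} (by
          rintro z ⟨n, k, a, _, rfl⟩
          refine g4 _ ?_ _ ?_
          · rw [opair_nat]; exact (natCast_lt_omega0 _).trans g3
          · apply ostk_lt
            intro x hx
            rw [List.mem_ofFn] at hx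
            obtain ⟨i, rfl⟩ := hx
            exact (F_lt hA' _).trans g2)
      have hcw : CodesW F W w := by
        intro n k a
        rw [hw']
        constructor
        · intro ha
          exact ⟨n, k, a, ha, rfl⟩
        · rintro ⟨n', k', a', ha', hz⟩
          obtain ⟨h5, h6⟩ := opair_inj hz
          rw [opair_nat, opair_nat, Nat.cast_inj] at h5
          have h7 := congrArg Nat.unpair h5
          rw [Nat.unpair_pair, Nat.unpair_pair, Prod.mk.injEq] at h7
          obtain ⟨rfl, rfl⟩ := h7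
          have h9 : a = a' := by
            funext i
            exact hA'.inj (congrFun (ostk_ofFn_inj h6) i)
          rw [h9]; exact ha'
      have h4 := h3 ⟨v, hv⟩ ⟨w, hw⟩ (by
        rintro i ⟨n, hn⟩
        refine ⟨⟨F (e n), (F_lt hA' _).trans o.2⟩, F_lt hA' _, ?_⟩
        intro ξ'
        show U (opair i.1 ξ'.1) v ↔ _
        rw [hn, hcv n]
        exact ⟨fun h => Subtype.ext h, fun h => congrArg Subtype.val h⟩)
      exact (hΘ2 Ω M A F o y ⟨v, hv⟩ ⟨w, hw⟩ e W _ c hA' hcv hcw φ (φ.code + 1)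
        (Nat.lt_succ_self _) h2).1 h4
    · intro hM
      refine ⟨o, y, nm Ω φ.code, ?_, rfl, ?_⟩
      · rw [ho, hy]; simp
      · intro v w hval
        have h5 : ∀ n : ℕ, ∃ m : M, ∀ ξ' : Lvl Ω, U (opair (n : Ordinal.{u}) ξ'.1) v.1 ↔
            ξ'.1 = F m := by
          intro n
          obtain ⟨ξ, hξ1, hξ2⟩ := hval (nm Ω n) ⟨n, rfl⟩
          obtain ⟨m, hm⟩ := (hA'.range ξ.1).1 hξ1
          refine ⟨m, fun ξ' => ?_⟩
          rw [hm]
          have := hξ2 ξ'
          rw [nm_val] at this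
          rw [this]
          exact Subtype.ext_iff
        choose e he using h5
        have hcv : CodesV F e v.1 := by
          intro n ξ'
          by_cases hlt : ξ' < Ω
          · exact he n ⟨ξ', hlt⟩
          · constructor
            · intro hU
              exact absurd (((le_opair_right _ _).trans_lt (U_lt hU)).trans v.2) hlt
            · intro hU
              rw [hU] at hlt
              exact absurd ((F_lt hA' _).trans o.2) hlt
        have hcw : CodesW F (fun n k a => U (opair (opair (n : Ordinal.{u})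
            (k : Ordinal.{u})) (ostk (List.ofFn fun i => F (a i)))) w.1) w.1 :=
          fun n k a => Iff.rfl
        exact (hΘ2 Ω M A F o y v w e _ _ (nm Ω φ.code) hA' hcv hcw φ (φ.code + 1)
          (Nat.lt_succ_self _) rfl).2 (hM _ _)

/-- Statement of P1b. -/
def StP1b (V : Vocab) : Prop := ∃ P : Fm, ∀ (M : Type u) [Infinite M] [FullΩ (Om M)]
    (x t : Lvl (Om M)), P.Sat (Lv (Om M)) (PFun.pr (Lv (Om M)) x t) ↔
      ∃ A : Str V M, IsCode A x.1 ∧ ∀ x' < x.1, ¬ IsCode A x'

/-- PIECE P1c. -/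
theorem types_exist {V : Vocab} (hP : StP1b.{u} V) (T₀ : Set (Formula V)) (h : RecursiveSet T₀) :
    ∃ (𝔸 : Set Fm) (Ψ : Fm),
      (∀ (Ω : Ordinal.{u}) [FullΩ Ω], Unif Ω 𝔸 Ψ) ∧
      ∀ (M : Type u) [Infinite M] [FullΩ (Om M)] (x : Lvl (Om M)),
        (∀ φ ∈ 𝔸, φ.Sat (Lv (Om M)) (PFun.pr (Lv (Om M)) x (PFun.z0 (Lv (Om M))))) ↔
        ∃ A : Str V M, A.ModelsAll T₀ ∧ IsCode A x.1 ∧ ∀ x' < x.1, ¬ IsCode A x' := by
  obtain ⟨P, hP⟩ := hP
  obtain ⟨Am, hAm1, hAm2⟩ := am_exists.{u} V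
  obtain ⟨hdec, hcomp⟩ := h
  let f : ℕ → ℕ := fun n => Nat.casesOn n P.code
    (fun m => bif (decide (∃ φ ∈ T₀, φ.code = m)) then (Am m).code else P.code)
  have hf : Computable f := by
    refine Computable.nat_casesOn Computable.id (Computable.const _) ?_
    exact (Computable.cond (hcomp.comp Computable.snd) (hAm1.comp Computable.snd)
      (Computable.const _))
  obtain ⟨D, hD⟩ := partrec_def.{u} (f := (f : ℕ →. ℕ)) (Partrec.nat_iff.1 hf)
  refine ⟨{P} ∪ {ψ | ∃ φ ∈ T₀, ψ = Am φ.code},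
    Fm.all (Fm.all (Fm.imp (Fm.app D [1, 0] 0)
      (Fm.ex (Fm.ex (Fm.and (num 0 1) (Fm.and (Fm.prv 5 1 0) (Fm.STv 4 2 0))))))), ?_, ?_⟩
  · intro Ω _ u y hu hyu
    simp only [Fm.sat_all, Fm.sat_imp, Fm.sat_app, Fm.sat_ex', Fm.sat_and, Fm.sat_prv, sat_num,
      sat_STv, nth_pr_zero, nth_pr_succ, List.map_cons, List.map_nil, List.foldr_cons,
      List.foldr_nil, hD]
    have key : (∀ n : ℕ, SatT u.1 (Nat.cast (f n)) (opair y.1 0)) ↔
        ∀ φ ∈ ({P} ∪ {ψ | ∃ φ ∈ T₀, ψ = Am φ.code} : Set Fm), SatT u.1 φ.code (opair y.1 0) := by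
      constructor
      · rintro h φ (rfl | ⟨φ', hφ', rfl⟩)
        · exact h 0
        · have h1 := h (φ'.code + 1)
          have h2 : f (φ'.code + 1) = (Am φ'.code).code := by
            show (bif (decide (∃ φ ∈ T₀, φ.code = φ'.code)) then (Am φ'.code).code
              else P.code) = _
            have : (∃ φ ∈ T₀, φ.code = φ'.code) := ⟨φ', hφ', rfl⟩
            simp [this]
          rwa [h2] at h1
      · intro h n
        cases n with
        | zero => exact h P (Or.inl rfl)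
        | succ m =>
          by_cases hm : ∃ φ ∈ T₀, φ.code = m
          · obtain ⟨φ', hφ', rfl⟩ := hm
            have h2 : f (φ'.code + 1) = (Am φ'.code).code := by
              show (bif (decide (∃ φ ∈ T₀, φ.code = φ'.code)) then (Am φ'.code).code
                else P.code) = _
              have : (∃ φ ∈ T₀, φ.code = φ'.code) := ⟨φ', hφ', rfl⟩
              simp [this]
            rw [h2]
            exact h _ (Or.inr ⟨φ', hφ', rfl⟩)
          · have h2 : f (m + 1) = P.code := by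
              show (bif (decide (∃ φ ∈ T₀, φ.code = m)) then (Am m).code else P.code) = _
              simp [hm]
            rw [h2]
            exact h P (Or.inl rfl)
    rw [← key]
    constructor
    · intro h n
      obtain ⟨z, a, hz, ha, hs⟩ := h (nm Ω n) (nm Ω (f n)) ⟨n, f n, rfl, rfl, by simp⟩
      have hz0 : z.1 = 0 := by rw [hz]; exact Nat.cast_zero
      have ha' : opair y.1 z.1 = a.1 := congrArg Subtype.val ha
      rw [hz0] at ha'
      rw [← ha'] at hs
      exact hs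
    · rintro h n c ⟨a, b, hn, hc, hb⟩
      have hb' : b = f a := by simpa using hb
      refine ⟨nm Ω 0, PFun.pr (Lv Ω) y (nm Ω 0), rfl, rfl, ?_⟩
      have h1 := h a
      rw [hc, hb', pr_val, nm_val, Nat.cast_zero]
      exact h1
  · intro M _ hΩ x
    constructor
    · intro h
      obtain ⟨A, hA1, hA2⟩ := (hP M x _).1 (h P (Or.inl rfl))
      obtain ⟨F, hF⟩ := hA1
      refine ⟨A, ?_, ⟨F, hF⟩, hA2⟩
      intro φ hφ
      exact (hAm2 (Om M) M A F x _ hF φ).1 (h _ (Or.inr ⟨φ, hφ, rfl⟩))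
    · rintro ⟨A, hA0, ⟨F, hF⟩, hA2⟩ φ (rfl | ⟨φ', hφ', rfl⟩)
      · exact (hP M x _).2 ⟨A, ⟨F, hF⟩, hA2⟩
      · exact (hAm2 (Om M) M A F x _ hF φ').2 (hA0 φ' hφ')

end Run7.h488.SO
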