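import Pool.Agent.Run7.h488.SO.R

/-! Piece Q of MP_cba9f6_lc: a finite structure is described by one second-order sentence. -/

namespace Run7.h488.SO

open Run7.h936.SO

universe u

/-- Finite conjunctions. -/
theorem exists_conj_list {V : Vocab} (l : List (Formula V)) :
    ∃ φ : Formula V, ∀ (M : Type u) (A : Str V M) (e : ℕ → M) (W : SOAssign M),
      φ.Sat A e W ↔ ∀ ψ ∈ l, ψ.Sat A e W := by
  induction l with
  | nil => exact ⟨.eq (.var 0) (.var 0), fun M A e W => by simp [Formula.Sat]⟩
  | cons ψ l ih =>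
    obtain ⟨φ, h⟩ := ih
    exact ⟨.and ψ φ, fun M A e W => by simp [Formula.Sat, h]⟩

/-- Finite conjunctions, indexed by a finite type. -/
theorem exists_conj {V : Vocab} {ι : Type*} [Finite ι] (f : ι → Formula V) :
    ∃ φ : Formula V, ∀ (M : Type u) (A : Str V M) (e : ℕ → M) (W : SOAssign M),
      φ.Sat A e W ↔ ∀ i, (f i).Sat A e W := by
  classical
  have := Fintype.ofFinite ι
  obtain ⟨φ, h⟩ := exists_conj_list.{u} ((Finset.univ : Finset ι).toList.map f)
  exact ⟨φ, fun M A e W => by rw [h]; simp⟩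

/-- PIECE Q (finite structures are described by one sentence). -/
theorem finite_described {V : Vocab} {M : Type u} [Finite M] [Nonempty M] (A : Str V M) :
    ∃ ψ : Formula V, ψ.IsSentence ∧ A.Models ψ ∧
      ∀ (N : Type u) [Nonempty N] (B : Str V N), B.Models ψ → A.Isom B := by
  classical
  obtain ⟨n, ⟨g⟩⟩ := Finite.exists_equiv_fin M
  obtain ⟨m₀⟩ := (inferInstance : Nonempty M)
  -- the pieces of the description
  obtain ⟨φ₁, h₁⟩ := exists_conj.{u} (V := V) (fun p : {p : M × M // p.1 ≠ p.2} =>
    Formula.neg (.eq (.var (g p.1.1)) (.var (g p.1.2))))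
  obtain ⟨φ₂, h₂⟩ := exists_conj.{u} (V := V) (fun m : M =>
    Formula.neg (.eq (.var n) (.var (g m))))
  obtain ⟨φ₃, h₃⟩ := exists_conj.{u} (V := V)
    (fun p : (Σ R : Fin V.nRel, (Fin (V.relAr R) → M)) =>
      if A.rel p.1 p.2 then Formula.rel p.1 (fun i => .var (g (p.2 i)))
      else Formula.neg (.rel p.1 (fun i => .var (g (p.2 i)))))
  obtain ⟨φ₄, h₄⟩ := exists_conj.{u} (V := V)
    (fun p : (Σ f : Fin V.nFun, (Fin (V.funAr f) → M)) =>
      Formula.eq (.app p.1 (fun i => .var (g (p.2 i)))) (.var (g (A.fn p.1 p.2))))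
  let θ : Formula V := .and φ₁ (.and (.all n (.neg φ₂)) (.and φ₃ φ₄))
  obtain ⟨ψ, hψ, hψ'⟩ := exists_sentence.{u} (Formula.neg θ)
  refine ⟨.neg ψ, hψ, ?_, ?_⟩
  · rw [(hψ' M A).2]
    intro hall
    let e : ℕ → M := fun k => if h : k < n then g.symm ⟨k, h⟩ else m₀
    have he : ∀ m : M, e (g m) = m := by
      intro m
      simp [e]
    apply hall e (fun _ _ _ => True)
    refine ⟨?_, ?_, ?_, ?_⟩
    · rw [h₁]
      rintro ⟨⟨a, b⟩, hab⟩
      simpa [Formula.Sat, Term.val, he] using hab
    · intro x
      simp only [Formula.Sat]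
      rw [h₂]
      intro hx
      apply hx x
      simp only [Formula.Sat, Term.val]
      rw [Function.update_self, Function.update_of_ne (g x).isLt.ne, he]
    · rw [h₃]
      rintro ⟨R, a⟩
      dsimp only
      split_ifs with hR
      · simpa [Formula.Sat, Term.val, he] using hR
      · simpa [Formula.Sat, Term.val, he] using hR
    · rw [h₄]
      rintro ⟨f, a⟩
      simp [Formula.Sat, Term.val, he]
  · intro N _ B hB
    rw [(hψ' N B).2] at hB
    have hex : ∃ (e : ℕ → N) (W : SOAssign N), θ.Sat B e W := by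
      by_contra hcon
      apply hB
      intro e W hs
      exact hcon ⟨e, W, hs⟩
    obtain ⟨e, W, s1, s2, s3, s4⟩ := hex
    rw [h₁] at s1
    rw [h₃] at s3
    rw [h₄] at s4
    let F : M → N := fun m => e (g m)
    have hinj : Function.Injective F := by
      intro a b hab
      by_contra hne
      exact s1 ⟨(a, b), hne⟩ hab
    have hsurj : Function.Surjective F := by
      intro y
      have h := s2 y
      simp only [Formula.Sat] at h
      rw [h₂] at h
      push Not at h
      obtain ⟨m, hm⟩ := h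
      simp only [Formula.Sat, Term.val, not_not] at hm
      rw [Function.update_self, Function.update_of_ne (g m).isLt.ne] at hm
      exact ⟨m, hm.symm⟩
    refine ⟨Equiv.ofBijective F ⟨hinj, hsurj⟩, ?_, ?_⟩
    · intro R a
      have h := s3 ⟨R, a⟩
      dsimp only at h
      split_ifs at h with hR
      · exact ⟨fun _ => h, fun _ => hR⟩
      · exact ⟨fun h' => absurd h' hR, fun h' => absurd h' h⟩
    · intro f a
      have h := s4 ⟨f, a⟩
      exact h.symm

end Run7.h488.SO
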