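import Pool.Agent.Run7.h936.SO.Groups
import Pool.Agent.Run7.h488.SO.L2

/-! Second-order side of MP_cba9f6_lc: helper formulas and groups. -/

set_option autoImplicit false
set_option linter.all false

namespace Run7.h488.SO

open Run7.h936.SO Ordinal Set

universe u

section formulas
variable {V : Vocab}

/-- `∃ x_i` -/
def exI (i : ℕ) (φ : Formula V) : Formula V := .neg (.all i (.neg φ))
/-- `∃ X^n_k` -/
def exR (n k : ℕ) (φ : Formula V) : Formula V := .neg (.allR n k (.neg φ))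
/-- `x_i` is in the domain of group `b` -/
def gd (b i : ℕ) : Formula V := .sov 1 b (fun _ => .var i)
/-- ternary variable `X^3_k` -/
def g3 (k i j l : ℕ) : Formula V := .sov 3 k ![.var i, .var j, .var l]
/-- `⟨x_i, x_j⟩ = x_l` in group `b` -/
def gP (b i j l : ℕ) : Formula V := g3 (6 * b) i j l
/-- `x_i < x_j` in group `b` -/
def gL (b i j : ℕ) : Formula V := g3 (6 * b + 1) i j i
/-- implication -/
def impF (φ ψ : Formula V) : Formula V := .neg (.and φ (.neg ψ))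

variable {M : Type u} (A : Str V M) (e : ℕ → M) (W : SOAssign M)

@[simp] theorem sat_exI (i : ℕ) (φ : Formula V) :
    (exI i φ).Sat A e W ↔ ∃ x, φ.Sat A (Function.update e i x) W := by
  simp [exI, Formula.Sat]

@[simp] theorem sat_exR (n k : ℕ) (φ : Formula V) :
    (exR n k φ).Sat A e W ↔ ∃ R, φ.Sat A e (W.upd n k R) := by
  simp [exR, Formula.Sat]

@[simp] theorem sat_impF (φ ψ : Formula V) :
    (impF φ ψ).Sat A e W ↔ (φ.Sat A e W → ψ.Sat A e W) := by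
  simp [impF, Formula.Sat]

@[simp] theorem sat_andF (φ ψ : Formula V) :
    (Formula.and φ ψ).Sat A e W ↔ (φ.Sat A e W ∧ ψ.Sat A e W) := Iff.rfl

@[simp] theorem sat_negF (φ : Formula V) :
    (Formula.neg φ).Sat A e W ↔ ¬ φ.Sat A e W := Iff.rfl

@[simp] theorem sat_allF (i : ℕ) (φ : Formula V) :
    (Formula.all i φ).Sat A e W ↔ ∀ x, φ.Sat A (Function.update e i x) W := Iff.rfl

@[simp] theorem sat_eqF (i j : ℕ) :
    (Formula.eq (.var i) (.var j) : Formula V).Sat A e W ↔ e i = e j := Iff.rfl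

@[simp] theorem sat_gd (b i : ℕ) : (gd b i : Formula V).Sat A e W ↔ GDom W b (e i) := by
  simp only [gd, Formula.Sat, GDom, Term.val]
  have : (fun _ : Fin 1 => e i) = ![e i] := by
    funext t; fin_cases t; rfl
  rw [this]

@[simp] theorem sat_g3 (k i j l : ℕ) :
    (g3 k i j l : Formula V).Sat A e W ↔ W 3 k ![e i, e j, e l] := by
  simp only [g3, Formula.Sat]
  have : (fun t : Fin 3 => ((![Term.var i, Term.var j, Term.var l] : Fin 3 → Term V) t).val A e) =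
      ![e i, e j, e l] := by
    funext t; fin_cases t <;> rfl
  rw [this]

@[simp] theorem sat_gP (b i j l : ℕ) :
    (gP b i j l : Formula V).Sat A e W ↔ W 3 (6 * b) ![e i, e j, e l] := sat_g3 A e W _ _ _ _

@[simp] theorem sat_gL (b i j : ℕ) :
    (gL b i j : Formula V).Sat A e W ↔ W 3 (6 * b + 1) ![e i, e j, e i] := sat_g3 A e W _ _ _ _

/-- Change group `b`. -/
def updG (W : SOAssign M) (b : ℕ) (D : (Fin 1 → M) → Prop) (R : Fin 6 → (Fin 3 → M) → Prop) :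
    SOAssign M :=
  ((((((W.upd 1 b D).upd 3 (6 * b) (R 0)).upd 3 (6 * b + 1) (R 1)).upd 3 (6 * b + 2) (R 2)).upd 3
    (6 * b + 3) (R 3)).upd 3 (6 * b + 4) (R 4)).upd 3 (6 * b + 5) (R 5)

/-- Quantify over group `b`. -/
def exG (b : ℕ) (φ : Formula V) : Formula V :=
  exR 1 b (exR 3 (6 * b) (exR 3 (6 * b + 1) (exR 3 (6 * b + 2) (exR 3 (6 * b + 3)
    (exR 3 (6 * b + 4) (exR 3 (6 * b + 5) φ))))))

theorem sat_exG (b : ℕ) (φ : Formula V) :
    (exG b φ).Sat A e W ↔ ∃ D R, φ.Sat A e (updG W b D R) := by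
  simp only [exG, sat_exR, updG]
  constructor
  · rintro ⟨D, R0, R1, R2, R3, R4, R5, h⟩
    exact ⟨D, ![R0, R1, R2, R3, R4, R5], h⟩
  · rintro ⟨D, R, h⟩
    exact ⟨D, R 0, R 1, R 2, R 3, R 4, R 5, h⟩

end formulas

section groups
variable {M : Type u} (W : SOAssign M) (b : ℕ) (D : (Fin 1 → M) → Prop)
  (R : Fin 6 → (Fin 3 → M) → Prop)

theorem updG_dom : (updG W b D R) 1 b = D := by
  unfold updG
  rw [upd_ne _ _ (by simp), upd_ne _ _ (by simp), upd_ne _ _ (by simp), upd_ne _ _ (by simp),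
    upd_ne _ _ (by simp), upd_ne _ _ (by simp), upd_same]

theorem updG_0 : (updG W b D R) 3 (6 * b) = R 0 := by
  unfold updG
  rw [upd_ne _ _ (by simp), upd_ne _ _ (by simp), upd_ne _ _ (by simp), upd_ne _ _ (by simp),
    upd_ne _ _ (by simp), upd_same]
theorem updG_1 : (updG W b D R) 3 (6 * b + 1) = R 1 := by
  unfold updG
  rw [upd_ne _ _ (by simp), upd_ne _ _ (by simp), upd_ne _ _ (by simp), upd_ne _ _ (by simp),
    upd_same]
theorem updG_2 : (updG W b D R) 3 (6 * b + 2) = R 2 := by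
  unfold updG
  rw [upd_ne _ _ (by simp), upd_ne _ _ (by simp), upd_ne _ _ (by simp), upd_same]
theorem updG_3 : (updG W b D R) 3 (6 * b + 3) = R 3 := by
  unfold updG
  rw [upd_ne _ _ (by simp), upd_ne _ _ (by simp), upd_same]
theorem updG_4 : (updG W b D R) 3 (6 * b + 4) = R 4 := by
  unfold updG
  rw [upd_ne _ _ (by simp), upd_same]
theorem updG_5 : (updG W b D R) 3 (6 * b + 5) = R 5 := by
  unfold updG
  rw [upd_same]

theorem updG_dom_ne {b' : ℕ} (h : b ≠ b') : (updG W b' D R) 1 b = W 1 b := by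
  unfold updG
  rw [upd_ne _ _ (by simp), upd_ne _ _ (by simp), upd_ne _ _ (by simp), upd_ne _ _ (by simp),
    upd_ne _ _ (by simp), upd_ne _ _ (by simp), upd_ne _ _ (by simp [h])]

theorem updG_ne {b' : ℕ} (h : b ≠ b') {i : ℕ} (hi : i < 6) :
    (updG W b' D R) 3 (6 * b + i) = W 3 (6 * b + i) := by
  have key : ∀ i' : ℕ, i' < 6 → (3, 6 * b + i) ≠ (3, 6 * b' + i') := by
    intro i' hi' h'
    have := (Prod.mk.inj h').2
    omega
  have key0 : (3, 6 * b + i) ≠ (3, 6 * b') := key 0 (by norm_num)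
  unfold updG
  rw [upd_ne _ _ (key 5 (by norm_num)), upd_ne _ _ (key 4 (by norm_num)),
    upd_ne _ _ (key 3 (by norm_num)), upd_ne _ _ (key 2 (by norm_num)),
    upd_ne _ _ (key 1 (by norm_num)), upd_ne _ _ key0, upd_ne _ _ (by simp)]

end groups

/-- Two assignments agree on group `b`. -/
structure Agree {M : Type u} (W W' : SOAssign M) (b : ℕ) : Prop where
  dom : W' 1 b = W 1 b
  rel : ∀ i < 6, W' 3 (6 * b + i) = W 3 (6 * b + i)

theorem agree_updG {M : Type u} (W : SOAssign M) {b b' : ℕ} (h : b ≠ b')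
    (D : (Fin 1 → M) → Prop) (R : Fin 6 → (Fin 3 → M) → Prop) : Agree W (updG W b' D R) b :=
  ⟨updG_dom_ne W b D R h, fun i hi => updG_ne W b D R h hi⟩

theorem Agree.gdom {M : Type u} {W W' : SOAssign M} {b : ℕ} (h : Agree W W' b) (x : M) :
    GDom W' b x ↔ GDom W b x := by
  unfold GDom; rw [h.dom]

/-- Explicit form of `IsLv`. -/
theorem isLv_iff {M : Type u} {W : SOAssign M} {b : ℕ} {δ : Ordinal.{u}}
    {c : {x : M // GDom W b x} ≃ Lvl δ} : IsLv W b δ c ↔ COrd δ ∧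
      (∀ x y z, W 3 (6 * b) ![x.1, y.1, z.1] ↔ opair (c x).1 (c y).1 = (c z).1) ∧
      (∀ x y z, W 3 (6 * b + 1) ![x.1, y.1, z.1] ↔ orel 2 (c x).1 (c y).1 (c z).1) ∧
      (∀ x y z, W 3 (6 * b + 2) ![x.1, y.1, z.1] ↔ orel 3 (c x).1 (c y).1 (c z).1) ∧
      (∀ x y z, W 3 (6 * b + 3) ![x.1, y.1, z.1] ↔ orel 4 (c x).1 (c y).1 (c z).1) ∧
      (∀ x y z, W 3 (6 * b + 4) ![x.1, y.1, z.1] ↔ orel 5 (c x).1 (c y).1 (c z).1) ∧
      (∀ x y z, W 3 (6 * b + 5) ![x.1, y.1, z.1] ↔ orel 6 (c x).1 (c y).1 (c z).1) := by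
  constructor
  · intro h
    exact ⟨h.cord, h.P, h.r 2, h.r 3, h.r 4, h.r 5, h.r 6⟩
  · rintro ⟨h0, h1, h2, h3, h4, h5, h6⟩
    refine ⟨h0, h1, ?_⟩
    intro s x y z
    match s with
    | 0 =>
      show x = y ↔ (c x).1 = (c y).1
      rw [← Subtype.ext_iff, EmbeddingLike.apply_eq_iff_eq]
    | 1 => exact h1 x y z
    | 2 => exact h2 x y z
    | 3 => exact h3 x y z
    | 4 => exact h4 x y z
    | 5 => exact h5 x y z
    | 6 => exact h6 x y z
    | s + 7 => exact Iff.rfl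

theorem IsLv.agree {M : Type u} {W W' : SOAssign M} {b : ℕ} {δ : Ordinal.{u}}
    {c : {x : M // GDom W b x} ≃ Lvl δ} (h : IsLv W b δ c) (hag : Agree W W' b) :
    ∃ c' : {x : M // GDom W' b x} ≃ Lvl δ, IsLv W' b δ c' ∧
      ∀ (x : M) (hx : GDom W b x) (hx' : GDom W' b x), c' ⟨x, hx'⟩ = c ⟨x, hx⟩ := by
  refine ⟨(Equiv.subtypeEquivRight (fun x => hag.gdom x)).trans c, ?_, fun x hx hx' => rfl⟩
  rw [isLv_iff] at h ⊢
  obtain ⟨h0, h1, h2, h3, h4, h5, h6⟩ := h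
  have r0 := hag.rel 0 (by norm_num)
  rw [add_zero] at r0
  refine ⟨h0, ?_, ?_, ?_, ?_, ?_, ?_⟩
  · intro x y z
    rw [r0]
    exact h1 ⟨x.1, (hag.gdom _).1 x.2⟩ ⟨y.1, (hag.gdom _).1 y.2⟩ ⟨z.1, (hag.gdom _).1 z.2⟩
  · intro x y z
    rw [hag.rel 1 (by norm_num)]
    exact h2 ⟨x.1, (hag.gdom _).1 x.2⟩ ⟨y.1, (hag.gdom _).1 y.2⟩ ⟨z.1, (hag.gdom _).1 z.2⟩
  · intro x y z
    rw [hag.rel 2 (by norm_num)]
    exact h3 ⟨x.1, (hag.gdom _).1 x.2⟩ ⟨y.1, (hag.gdom _).1 y.2⟩ ⟨z.1, (hag.gdom _).1 z.2⟩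
  · intro x y z
    rw [hag.rel 3 (by norm_num)]
    exact h4 ⟨x.1, (hag.gdom _).1 x.2⟩ ⟨y.1, (hag.gdom _).1 y.2⟩ ⟨z.1, (hag.gdom _).1 z.2⟩
  · intro x y z
    rw [hag.rel 4 (by norm_num)]
    exact h5 ⟨x.1, (hag.gdom _).1 x.2⟩ ⟨y.1, (hag.gdom _).1 y.2⟩ ⟨z.1, (hag.gdom _).1 z.2⟩
  · intro x y z
    rw [hag.rel 5 (by norm_num)]
    exact h6 ⟨x.1, (hag.gdom _).1 x.2⟩ ⟨y.1, (hag.gdom _).1 y.2⟩ ⟨z.1, (hag.gdom _).1 z.2⟩

theorem exists_grp {M : Type u} (W : SOAssign M) (b : ℕ) {δ : Ordinal.{u}} (hδ : COrd δ)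
    (j : Lvl δ → M) (hj : Function.Injective j) :
    ∃ (D : (Fin 1 → M) → Prop) (R : Fin 6 → (Fin 3 → M) → Prop)
      (c : {x : M // GDom (updG W b D R) b x} ≃ Lvl δ), IsLv (updG W b D R) b δ c ∧
      ∀ x, j (c x) = x.1 := by
  classical
  let rl : Fin 6 → Lvl δ → Lvl δ → Lvl δ → Prop :=
    ![fun x y z => opair x.1 y.1 = z.1, fun x y z => orel 2 x.1 y.1 z.1,
      fun x y z => orel 3 x.1 y.1 z.1, fun x y z => orel 4 x.1 y.1 z.1,
      fun x y z => orel 5 x.1 y.1 z.1, fun x y z => orel 6 x.1 y.1 z.1]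
  let D : (Fin 1 → M) → Prop := fun v => v 0 ∈ Set.range j
  let R : Fin 6 → (Fin 3 → M) → Prop := fun i v =>
    ∃ α β γ : Lvl δ, v 0 = j α ∧ v 1 = j β ∧ v 2 = j γ ∧ rl i α β γ
  have hD : ∀ x, GDom (updG W b D R) b x ↔ x ∈ Set.range j := by
    intro x
    unfold GDom
    rw [updG_dom]
    exact Iff.rfl
  let c : {x : M // GDom (updG W b D R) b x} ≃ Lvl δ :=
    (Equiv.subtypeEquivRight hD).trans (Equiv.ofInjective j hj).symm
  have hc : ∀ x, j (c x) = x.1 := by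
    intro x
    show j ((Equiv.ofInjective j hj).symm _) = _
    exact congrArg Subtype.val ((Equiv.ofInjective j hj).apply_symm_apply _)
  have key : ∀ i (x y z : {x : M // GDom (updG W b D R) b x}),
      R i ![x.1, y.1, z.1] ↔ rl i (c x) (c y) (c z) := by
    intro i x y z
    constructor
    · rintro ⟨α, β, γ, h1, h2, h3, h4⟩
      have e1 : α = c x := hj (by rw [hc]; exact h1.symm)
      have e2 : β = c y := hj (by rw [hc]; exact h2.symm)
      have e3 : γ = c z := hj (by rw [hc]; exact h3.symm)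
      rw [← e1, ← e2, ← e3]; exact h4
    · intro h
      exact ⟨c x, c y, c z, (hc x).symm, (hc y).symm, (hc z).symm, h⟩
  refine ⟨D, R, c, ?_, hc⟩
  rw [isLv_iff]
  refine ⟨hδ, ?_, ?_, ?_, ?_, ?_, ?_⟩
  · rw [updG_0]; exact key 0
  · rw [updG_1]; exact key 1
  · rw [updG_2]; exact key 2
  · rw [updG_3]; exact key 3
  · rw [updG_4]; exact key 4
  · rw [updG_5]; exact key 5

/-- A coded level is below `κ⁺`. -/
theorem lv_lt_Om {M : Type u} {W : SOAssign M} {b : ℕ} {δ : Ordinal.{u}}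
    (c : {x : M // GDom W b x} ≃ Lvl δ) : δ < Om M := by
  rw [Om, Cardinal.lt_ord, Order.lt_succ_iff]
  have h1 : Cardinal.lift.{u+1} (Cardinal.mk {x : M // GDom W b x}) =
      Cardinal.lift.{u} (Cardinal.mk (Lvl δ)) :=
    Cardinal.lift_mk_eq'.2 ⟨c⟩
  have h2 : Cardinal.mk (Lvl δ) = Cardinal.lift.{u+1} δ.card := Cardinal.mk_Iio_ordinal δ
  rw [h2, Cardinal.lift_lift] at h1
  have h3 : Cardinal.mk {x : M // GDom W b x} = δ.card := by
    apply Cardinal.lift_injective.{u+1, u}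
    rw [h1]
  rw [← h3]
  exact Cardinal.mk_subtype_le _

/-- A level below `κ⁺` embeds. -/
theorem exists_emb {M : Type u} {δ : Ordinal.{u}} (h : δ < Om M) :
    ∃ j : Lvl δ → M, Function.Injective j := by
  rw [Om, Cardinal.lt_ord, Order.lt_succ_iff] at h
  have h2 : Cardinal.mk (Lvl δ) = Cardinal.lift.{u+1} δ.card := Cardinal.mk_Iio_ordinal δ
  have h3 : Cardinal.lift.{u} (Cardinal.mk (Lvl δ)) ≤ Cardinal.lift.{u+1} (Cardinal.mk M) := by
    rw [h2, Cardinal.lift_lift]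
    exact Cardinal.lift_le.2 h
  obtain ⟨j⟩ := Cardinal.lift_mk_le'.1 h3
  exact ⟨j, j.injective⟩

end Run7.h488.SO
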